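import Pool.Agent.H54.PC.Exa

/-!
# Plan C: relations between the class numbers of the chains of boxes, at rational arguments
-/

set_option autoImplicit false

namespace Pool.PC

open Finset Real

/-- **The relations between the class numbers**, on the rationals. -/
structure NumR (M : ℕ) (δ γ : ℝ) (s : ℕ → ℝ) : Prop where
  q0 : ∀ k < M, 0 ≤ cq M s k
  qn : ∀ k < M, cq M s k ≤ cn M s k
  n1 : ∀ k < M, cn M s k ≤ 1
  qg : ∀ k, k + 1 < M → min (cq M s k + γ) 1 ≤ cq M s (k + 1)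
  ng : ∀ k, k + 1 < M → min (cn M s k + γ) 1 ≤ cn M s (k + 1)
  rot0 : ∀ k < M, ∀ w : ℚ, 0 ≤ w → w ≤ 1 → 0 ≤ crot M s k w
  rotn : ∀ k < M, ∀ w : ℚ, 0 ≤ w → w ≤ 1 → crot M s k w ≤ cn M s k - cq M s k
  rotm : ∀ k < M, ∀ w w' : ℚ, 0 ≤ w → w ≤ w' → w' ≤ 1 → crot M s k w ≤ crot M s k w'
  act0 : ∀ k < M, ∀ x : ℚ, 0 ≤ x → (x : ℝ) ≤ cq M s k → cact M s k x = 0
  actm : ∀ k < M, ∀ x y : ℚ, 0 ≤ x → x ≤ y → y ≤ 1 → cact M s k x ≤ cact M s k y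
  actl : ∀ k < M, ∀ x y : ℚ, 0 ≤ x → x ≤ y → y ≤ 1 →
    cact M s k y - cact M s k x ≤ (y - x) * Real.log 2
  actd : ∀ k < M, ∀ x : ℚ, cq M s k ≤ x → x ≤ 1 →
    δ * (x - cq M s k) * Real.log 2 ≤ cact M s k x

end Pool.PC
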