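import Pool.Agent.H85.TG.TBP
import Pool.Agent.H83.OCG.NC
import Pool.Agent.H9.K2.Defs2

/-!
# Exact kernels; rounded lines
-/

set_option autoImplicit false

namespace Pool.KA

open Finset Real
open Pool.Agent.H49.Ent Pool.Agent.H32.Dense Pool.STK Pool.KAF

variable {m J : ℕ}

/-- The exact conditional law of the time, given the line and the side information. -/
noncomputable def Fam.ek (F : Fam m J) (ω : F.Ω) (t : ℕ) : ℝ :=
  law F.p (fun w => (F.T w, (F.l w, F.Z w))) (t, (F.l ω, F.Z ω)) /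
    law F.p (fun w => (F.l w, F.Z w)) (F.l ω, F.Z ω)

open Classical in
theorem sum_law_pair {Ω U : Type} [Fintype Ω] (p : Ω → ℝ) (X : Ω → ℕ) (W : Ω → U)
    (G : Finset ℕ) (w₀ : U) : ∑ t ∈ G, law p (fun w => (X w, W w)) (t, w₀) =
      ∑ w, if X w ∈ G ∧ W w = w₀ then p w else 0 := by
  unfold law
  rw [Finset.sum_comm]
  refine Finset.sum_congr rfl fun w _ => ?_
  by_cases h : W w = w₀
  · by_cases h2 : X w ∈ G
    · rw [if_pos ⟨h2, h⟩, Finset.sum_eq_single_of_mem (X w) h2]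
      · rw [if_pos (show (X w, W w) = (X w, w₀) by rw [h])]
      · intro t _ ht
        rw [if_neg]
        intro e
        exact ht (Prod.ext_iff.1 e).1.symm
    · rw [if_neg (fun h3 => h2 h3.1)]
      refine Finset.sum_eq_zero fun t ht => ?_
      rw [if_neg]
      intro e
      have e1 : X w = t := (Prod.ext_iff.1 e).1
      exact h2 (by rw [e1]; exact ht)
  · rw [if_neg (fun h3 => h h3.2)]
    refine Finset.sum_eq_zero fun t _ => ?_
    rw [if_neg]
    intro e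
    exact h (Prod.ext_iff.1 e).2

open Classical in
theorem ek_sum (F : Fam m J) (ω : F.Ω) (G : Finset ℕ) : ∑ t ∈ G, F.ek ω t =
    (∑ w, if F.T w ∈ G ∧ (F.l w, F.Z w) = (F.l ω, F.Z ω) then F.p w else 0) /
      law F.p (fun w => (F.l w, F.Z w)) (F.l ω, F.Z ω) := by
  unfold Fam.ek
  rw [← Finset.sum_div, sum_law_pair]
  congr 1
  refine Finset.sum_congr rfl fun w _ => ?_
  by_cases h : F.T w ∈ G ∧ (F.l w, F.Z w) = (F.l ω, F.Z ω)
  · rw [if_pos h, if_pos h]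
  · rw [if_neg h, if_neg h]

theorem ek_nonneg (F : Fam m J) (ω : F.Ω) (t : ℕ) : 0 ≤ F.ek ω t :=
  div_nonneg (law_nonneg F.isLaw.nonneg _ _) (law_nonneg F.isLaw.nonneg _ _)

/-- The exact kernel is a kernel. -/
theorem ek_ker (F : Fam m J) : F.Ker F.ek where
  nonneg := ek_nonneg F
  sum := by
    classical
    intro ω
    rw [ek_sum]
    refine div_le_one_of_le₀ ?_ (law_nonneg F.isLaw.nonneg _ _)
    unfold law
    refine Finset.sum_le_sum fun w _ => ?_
    by_cases h : (F.l w, F.Z w) = (F.l ω, F.Z ω)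
    · rw [if_pos h]
      split_ifs
      · exact le_rfl
      · exact F.isLaw.nonneg w
    · rw [if_neg h, if_neg fun h2 => h h2.2]
  pos := by
    intro ω hω
    refine div_pos (law_pos F.isLaw.nonneg _ hω) (law_pos F.isLaw.nonneg _ hω)
  det := by
    intro ω ω' _ _ e
    funext t
    have e' : (F.l ω, F.Z ω) = (F.l ω', F.Z ω') := e
    unfold Fam.ek
    rw [e']

theorem ek_kl (F : Fam m J) : F.kl F.ek = 0 := by
  have hp := F.isLaw.nonneg
  unfold Fam.kl CH H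
  have e1 : Ex F.p (fun ω => -Real.log (F.ek ω (F.T ω))) =
      -(∑ ω, F.p ω * Real.log (law F.p (fun w => (F.T w, (F.l w, F.Z w)))
        (F.T ω, (F.l ω, F.Z ω)))) + ∑ ω, F.p ω * Real.log (law F.p (fun w => (F.l w, F.Z w))
        (F.l ω, F.Z ω)) := by
    unfold Ex
    rw [← Finset.sum_neg_distrib, ← Finset.sum_add_distrib]
    refine Finset.sum_congr rfl fun ω _ => ?_
    rcases (hp ω).eq_or_lt with h | h
    · rw [← h]
      ring
    · have h1 : Real.log (F.ek ω (F.T ω)) =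
          Real.log (law F.p (fun w => (F.T w, (F.l w, F.Z w))) (F.T ω, (F.l ω, F.Z ω))) -
          Real.log (law F.p (fun w => (F.l w, F.Z w)) (F.l ω, F.Z ω)) :=
        Real.log_div (law_pos hp (fun w => (F.T w, (F.l w, F.Z w))) h).ne'
          (law_pos hp (fun w => (F.l w, F.Z w)) h).ne'
      show F.p ω * -Real.log (F.ek ω (F.T ω)) = _
      rw [h1]
      ring
  rw [e1]
  ring

open Classical in
theorem ek_pm (F : Fam m J) {v : ℕ} (ω : F.Ω) : pm (F.ek ω) J v (F.T ω) =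
    law F.p (fun w => (F.T1 v w, (F.l w, F.Z w))) (F.T1 v ω, (F.l ω, F.Z ω)) /
      law F.p (fun w => (F.l w, F.Z w)) (F.l ω, F.Z ω) := by
  unfold pm lowk
  have h1 : ∑ r ∈ range (2 ^ (J - v)), F.ek ω (F.T ω / 2 ^ (J - v) * 2 ^ (J - v) + r) =
      ∑ t ∈ (range (2 ^ (J - v))).image (fun r => F.T ω / 2 ^ (J - v) * 2 ^ (J - v) + r),
        F.ek ω t := by
    rw [Finset.sum_image]
    intro a _ b _ h
    simpa using h
  rw [h1, ek_sum]
  congr 1
  unfold law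
  refine Finset.sum_congr rfl fun w _ => ?_
  have h2 : (F.T w ∈ (range (2 ^ (J - v))).image
      (fun r => F.T ω / 2 ^ (J - v) * 2 ^ (J - v) + r)) ↔ F.T1 v w = F.T1 v ω := by
    rw [Finset.mem_image, Fam.T1_eq, Fam.T1_eq]
    have hq : 0 < 2 ^ (J - v) := by positivity
    constructor
    · rintro ⟨r, hr, h⟩
      rw [Finset.mem_range] at hr
      rw [← h, Nat.add_comm, Nat.add_mul_div_right _ _ hq, Nat.div_eq_of_lt hr, Nat.zero_add]
    · intro h
      refine ⟨F.T w % 2 ^ (J - v), Finset.mem_range.2 (Nat.mod_lt _ hq), ?_⟩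
      rw [← h]
      exact Nat.div_add_mod' _ _
  by_cases h3 : F.T1 v w = F.T1 v ω
  · by_cases h4 : (F.l w, F.Z w) = (F.l ω, F.Z ω)
    · rw [if_pos ⟨h2.2 h3, h4⟩, if_pos (show (F.T1 v w, (F.l w, F.Z w)) =
        (F.T1 v ω, (F.l ω, F.Z ω)) by rw [h3, h4])]
    · rw [if_neg (fun h => h4 h.2), if_neg (fun h => h4 (Prod.ext_iff.1 h).2)]
  · rw [if_neg (fun h => h3 (h2.1 h.1)), if_neg (fun h => h3 (Prod.ext_iff.1 h).1)]

open Classical in
theorem ek_pn (F : Fam m J) {v K : ℕ} (hv : v + K ≤ J) (ω : F.Ω) :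
    pn (F.ek ω) J v K (F.T ω) ≤
      (∑ w, if (F.T1 v w, (F.l w, F.Z w)) = (F.T1 v ω, (F.l ω, F.Z ω)) ∧
        |((F.T1 (v + K) w : ℤ)) - F.T1 (v + K) ω| ≤ 1 then F.p w else 0) /
      law F.p (fun w => (F.l w, F.Z w)) (F.l ω, F.Z ω) := by
  have hp := F.isLaw.nonneg
  have hq : 0 < 2 ^ (J - (v + K)) := by positivity
  -- one subwindow
  have h1 : ∀ j, lowk (F.ek ω) (J - (v + K)) (F.T ω / 2 ^ (J - v) * 2 ^ K + j) =
      (∑ w, if F.T1 (v + K) w = F.T ω / 2 ^ (J - v) * 2 ^ K + j ∧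
        (F.l w, F.Z w) = (F.l ω, F.Z ω) then F.p w else 0) /
      law F.p (fun w => (F.l w, F.Z w)) (F.l ω, F.Z ω) := by
    intro j
    generalize F.T ω / 2 ^ (J - v) * 2 ^ K + j = s
    unfold lowk
    have h1 : ∑ r ∈ range (2 ^ (J - (v + K))), F.ek ω (s * 2 ^ (J - (v + K)) + r) =
        ∑ t ∈ (range (2 ^ (J - (v + K)))).image (fun r => s * 2 ^ (J - (v + K)) + r),
          F.ek ω t := by
      rw [Finset.sum_image]
      intro a _ b _ h
      simpa using h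
    rw [h1, ek_sum]
    congr 1
    refine Finset.sum_congr rfl fun w _ => ?_
    have h2 : (F.T w ∈ (range (2 ^ (J - (v + K)))).image
        (fun r => s * 2 ^ (J - (v + K)) + r)) ↔ F.T1 (v + K) w = s := by
      rw [Finset.mem_image, Fam.T1_eq]
      constructor
      · rintro ⟨r, hr, h⟩
        rw [Finset.mem_range] at hr
        rw [← h, Nat.add_comm, Nat.add_mul_div_right _ _ hq, Nat.div_eq_of_lt hr, Nat.zero_add]
      · intro h
        refine ⟨F.T w % 2 ^ (J - (v + K)), Finset.mem_range.2 (Nat.mod_lt _ hq), ?_⟩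
        rw [← h]
        exact Nat.div_add_mod' _ _
    simp only [h2]
  unfold pn
  simp only [h1]
  have h2 : ∀ j, (if F.T ω / 2 ^ (J - v) * 2 ^ K + j ≤ F.T ω / 2 ^ (J - (v + K)) + 1 ∧
      F.T ω / 2 ^ (J - (v + K)) ≤ F.T ω / 2 ^ (J - v) * 2 ^ K + j + 1 then
      (∑ w, if F.T1 (v + K) w = F.T ω / 2 ^ (J - v) * 2 ^ K + j ∧
        (F.l w, F.Z w) = (F.l ω, F.Z ω) then F.p w else 0) /
      law F.p (fun w => (F.l w, F.Z w)) (F.l ω, F.Z ω) else 0) =
      (∑ w, if F.T1 (v + K) w = F.T ω / 2 ^ (J - v) * 2 ^ K + j ∧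
        ((F.l w, F.Z w) = (F.l ω, F.Z ω) ∧
          (F.T ω / 2 ^ (J - v) * 2 ^ K + j ≤ F.T ω / 2 ^ (J - (v + K)) + 1 ∧
          F.T ω / 2 ^ (J - (v + K)) ≤ F.T ω / 2 ^ (J - v) * 2 ^ K + j + 1)) then F.p w else 0) /
      law F.p (fun w => (F.l w, F.Z w)) (F.l ω, F.Z ω) := by
    intro j
    split_ifs with h
    · congr 1
      refine Finset.sum_congr rfl fun w _ => ?_
      simp only [h, and_true]
    · simp only [h, and_false, if_false, Finset.sum_const_zero, zero_div]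
  rw [Finset.sum_congr rfl fun j _ => h2 j, ← Finset.sum_div]
  refine div_le_div_of_nonneg_right ?_ (law_nonneg hp _ _)
  rw [Finset.sum_comm]
  refine Finset.sum_le_sum fun w _ => ?_
  by_cases hw : ∃ j ∈ range (2 ^ K), F.T1 (v + K) w = F.T ω / 2 ^ (J - v) * 2 ^ K + j ∧
      ((F.l w, F.Z w) = (F.l ω, F.Z ω) ∧
        (F.T ω / 2 ^ (J - v) * 2 ^ K + j ≤ F.T ω / 2 ^ (J - (v + K)) + 1 ∧
        F.T ω / 2 ^ (J - (v + K)) ≤ F.T ω / 2 ^ (J - v) * 2 ^ K + j + 1))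
  · obtain ⟨j, hj, e1, e2, e3, e4⟩ := hw
    rw [Finset.sum_eq_single_of_mem j hj]
    · rw [if_pos ⟨e1, e2, e3, e4⟩, if_pos]
      refine ⟨Prod.ext ?_ e2, ?_⟩
      · have h3 := F.T1_T1 (Nat.le_add_right v K) hv w
        rw [Nat.add_sub_cancel_left] at h3
        show F.T1 v w = F.T1 v ω
        rw [← h3, e1, F.T1_eq v ω, Nat.add_comm,
          Nat.add_mul_div_right _ _ (by positivity), Nat.div_eq_of_lt (Finset.mem_range.1 hj),
          Nat.zero_add]
      · rw [← e1] at e3 e4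
        rw [← F.T1_eq] at e3 e4
        rw [abs_le]
        constructor <;> omega
    · intro j' _ hj'
      rw [if_neg]
      rintro ⟨h3, -⟩
      rw [e1] at h3
      exact hj' (by omega)
  · rw [Finset.sum_eq_zero]
    · split_ifs
      · exact hp w
      · exact le_rfl
    · intro j hj
      rw [if_neg]
      intro h
      exact hw ⟨j, hj, h⟩

/-- A dead window of the exact kernel. -/
theorem ek_dead (F : Fam m J) {v K : ℕ} (hv : v + K ≤ J) {η : ℝ} (hη : 0 < η) {ω : F.Ω}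
    (hω : 0 < F.p ω) (h : η * pm (F.ek ω) J v (F.T ω) < pn (F.ek ω) J v K (F.T ω)) :
    1 ≤ 1 / η * Pr (cond F.p (fun w => (F.T1 v w, (F.l w, F.Z w)))
      (F.T1 v ω, (F.l ω, F.Z ω))) {w | |((F.T1 (v + K) w : ℤ)) - F.T1 (v + K) ω| ≤ 1} := by
  classical
  have hp := F.isLaw.nonneg
  have h1 := ek_pn F hv ω
  have h2 := ek_pm F (v := v) ω
  have hW : 0 < law F.p (fun w => (F.l w, F.Z w)) (F.l ω, F.Z ω) := law_pos hp _ hω
  have hV : 0 < law F.p (fun w => (F.T1 v w, (F.l w, F.Z w))) (F.T1 v ω, (F.l ω, F.Z ω)) :=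
    law_pos hp (fun w => (F.T1 v w, (F.l w, F.Z w))) hω
  have h3 : Pr (cond F.p (fun w => (F.T1 v w, (F.l w, F.Z w)))
      (F.T1 v ω, (F.l ω, F.Z ω))) {w | |((F.T1 (v + K) w : ℤ)) - F.T1 (v + K) ω| ≤ 1} =
      (∑ w, if (F.T1 v w, (F.l w, F.Z w)) = (F.T1 v ω, (F.l ω, F.Z ω)) ∧
        |((F.T1 (v + K) w : ℤ)) - F.T1 (v + K) ω| ≤ 1 then F.p w else 0) /
      law F.p (fun w => (F.T1 v w, (F.l w, F.Z w))) (F.T1 v ω, (F.l ω, F.Z ω)) := by
    rw [Pool.KAF.Pr_eq, Finset.sum_div]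
    refine Finset.sum_congr rfl fun w _ => ?_
    unfold Pool.Agent.H49.Ent.cond
    by_cases a1 : (F.T1 v w, (F.l w, F.Z w)) = (F.T1 v ω, (F.l ω, F.Z ω))
    · by_cases a2 : |((F.T1 (v + K) w : ℤ)) - F.T1 (v + K) ω| ≤ 1
      · simp only [Set.mem_ofPred_eq, a1, a2, if_true, and_self]
      · simp only [Set.mem_ofPred_eq, a1, a2, if_false, and_false, zero_div]
    · simp only [Set.mem_ofPred_eq, a1, if_false, false_and, zero_div, ite_self]
  rw [h3, one_div, ← div_eq_inv_mul, le_div_iff₀ hη, one_mul, le_div_iff₀ hV]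
  rw [h2, ← mul_div_assoc] at h
  have h4 := (div_lt_div_iff_of_pos_right hW).1 (h.trans_le h1)
  exact h4.le

open Classical in
/-- The dead windows of the exact kernel. -/
theorem ek_nbad (F : Fam m J) (K : ℕ) {η : ℝ} (hη : 0 < η) :
    Ex F.p (fun ω => (nbad (F.ek ω) J K η (F.T ω) 0 J : ℝ)) ≤
      1 / η * ∑ v ∈ (Ico 0 J).filter (fun v => v + K ≤ J),
        Pr (dbl F.p (fun w => (F.T1 v w, (F.l w, F.Z w))))
          {w | |((F.T1 (v + K) w.2 : ℤ)) - F.T1 (v + K) w.1| ≤ 1} := by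
  have hp := F.isLaw.nonneg
  have h1 : ∀ ω, 0 < F.p ω → (nbad (F.ek ω) J K η (F.T ω) 0 J : ℝ) ≤
      ∑ v ∈ (Ico 0 J).filter (fun v => v + K ≤ J), 1 / η *
        Pr (cond F.p (fun w => (F.T1 v w, (F.l w, F.Z w)))
          (F.T1 v ω, (F.l ω, F.Z ω))) {w | |((F.T1 (v + K) w : ℤ)) - F.T1 (v + K) ω| ≤ 1} := by
    intro ω hω
    unfold nbad
    rw [← Finset.filter_filter, Finset.card_filter]
    push_cast
    refine Finset.sum_le_sum fun v hv => ?_
    split_ifs with h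
    · exact ek_dead F (Finset.mem_filter.1 hv).2 hη hω h
    · refine mul_nonneg (by positivity) ?_
      exact Pool.OCG.Pr_nonneg' (fun w => cond_nonneg hp _ _ w) _
  refine (Ex_mono hp h1).trans (le_of_eq ?_)
  unfold Ex
  simp only [Finset.mul_sum]
  rw [Finset.sum_comm]
  refine Finset.sum_congr rfl fun v _ => ?_
  rw [Pool.M5T.Pr_dbl]
  unfold Ex
  rw [Finset.mul_sum]
  refine Finset.sum_congr rfl fun ω _ => ?_
  have e : Pr (cond F.p (fun w => (F.T1 v w, (F.l w, F.Z w)))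
      (F.T1 v ω, (F.l ω, F.Z ω))) {w | |((F.T1 (v + K) w : ℤ)) - F.T1 (v + K) ω| ≤ 1} =
      Pr (cond F.p (fun w => (F.T1 v w, (F.l w, F.Z w)))
      (F.T1 v ω, (F.l ω, F.Z ω))) {v' | (ω, v') ∈ {w : F.Ω × F.Ω |
        |((F.T1 (v + K) w.2 : ℤ)) - F.T1 (v + K) w.1| ≤ 1}} := rfl
  rw [e]
  ring

/-- **Rounded lines**: the dead windows of the exact kernel. -/
theorem rou (F : Fam m J) {s : Prop} {K : ℕ} {η r n e ρ : ℝ} (hρ : 0 < ρ) (hη : 0 ≤ η)
    (h : F.TG s K η r n e) {η' : ℝ} (hη' : 0 < η') :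
    Ex F.p (fun ω => (nbad (F.rnd.ek ω) J K η' (F.T ω) 0 J : ℝ)) ≤
      3 / η' * (n + (r + η) * J + (ρ * J + K * e / ρ)) := by
  classical
  have hp := F.isLaw.nonneg
  obtain ⟨g, hg0, hg, hgp⟩ := tg_tbp m J F s K η r n e ρ hρ hη h
  have h1 := ek_nbad F.rnd K hη'
  have h2 : ∀ v ∈ (Ico 0 J).filter (fun v => v + K ≤ J),
      Pr (dbl F.rnd.p (fun w => (F.rnd.T1 v w, (F.rnd.l w, F.rnd.Z w))))
          {w | |((F.rnd.T1 (v + K) w.2 : ℤ)) - F.rnd.T1 (v + K) w.1| ≤ 1} ≤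
      3 * Ex F.p (fun ω => ∑ w, if |(F.T w : ℝ) - F.T ω| < 2 ^ (J - (v + K)) then
            cond F.p (fun w => (F.T1 v w, (F.l w, F.Z w))) (F.T1 v ω, (F.l ω, F.Z ω)) w else 0) := by
    intro v _
    have a1 := Pool.OCG.near3 F.isLaw (fun w => (F.rnd.T1 v w, (F.rnd.l w, F.rnd.Z w)))
      (fun w => ((F.T1 (v + K) w : ℕ) : ℤ))
    have a2 := Pool.OCG.col_coarse (κ := fun w => (F.T1 v w, (F.l w, F.Z w)))
      (κ' := fun w => (F.rnd.T1 v w, (F.rnd.l w, F.rnd.Z w))) hp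
      (fun w => ((F.T1 (v + K) w : ℕ) : ℤ)) (by
        intro ω ω' _ _ e
        have e1 := Prod.ext_iff.1 e
        have e2 := Prod.ext_iff.1 e1.2
        have e3 : F.u ω = F.u ω' := (Prod.ext_iff.1 e2.1).1
        have e4 : F.d ω = F.d ω' := (Prod.ext_iff.1 e2.1).2
        have e5 : F.Z ω = F.Z ω' := e2.2
        have e6 : F.T1 v ω = F.T1 v ω' := e1.1
        refine Prod.ext e6 (Prod.ext (Prod.ext ?_ ?_) e5)
        · funext i
          show (⌊(2 : ℝ) ^ J * F.u ω i⌋ : ℝ) / 2 ^ J = (⌊(2 : ℝ) ^ J * F.u ω' i⌋ : ℝ) / 2 ^ J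
          rw [e3]
        · funext i
          show (⌊(2 : ℝ) ^ J * F.d ω i⌋ : ℝ) / 2 ^ J = (⌊(2 : ℝ) ^ J * F.d ω' i⌋ : ℝ) / 2 ^ J
          rw [e4])
    have a3 : Pr (dbl F.p (fun w => (F.T1 v w, (F.l w, F.Z w))))
        {w | ((F.T1 (v + K) w.2 : ℕ) : ℤ) = ((F.T1 (v + K) w.1 : ℕ) : ℤ)} ≤
        Ex F.p (fun ω => ∑ w, if |(F.T w : ℝ) - F.T ω| < 2 ^ (J - (v + K)) then
            cond F.p (fun w => (F.T1 v w, (F.l w, F.Z w))) (F.T1 v ω, (F.l ω, F.Z ω)) w
              else 0) := by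
      rw [Pool.M5T.Pr_dbl]
      refine Ex_mono hp fun ω _ => ?_
      rw [Pool.KAF.Pr_eq]
      refine Finset.sum_le_sum fun w _ => ?_
      by_cases b1 : F.T1 (v + K) w = F.T1 (v + K) ω
      · have b2 : |(F.T w : ℝ) - F.T ω| < 2 ^ (J - (v + K)) := by
          rw [F.T1_eq, F.T1_eq] at b1
          have c1 := Nat.div_add_mod (F.T w) (2 ^ (J - (v + K)))
          have c2 := Nat.div_add_mod (F.T ω) (2 ^ (J - (v + K)))
          have c3 := Nat.mod_lt (F.T w) (by positivity : 0 < 2 ^ (J - (v + K)))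
          have c4 := Nat.mod_lt (F.T ω) (by positivity : 0 < 2 ^ (J - (v + K)))
          rw [b1] at c1
          have c1' : ((2 ^ (J - (v + K)) * (F.T ω / 2 ^ (J - (v + K))) +
            F.T w % 2 ^ (J - (v + K)) : ℕ) : ℝ) = F.T w := by exact_mod_cast c1
          have c2' : ((2 ^ (J - (v + K)) * (F.T ω / 2 ^ (J - (v + K))) +
            F.T ω % 2 ^ (J - (v + K)) : ℕ) : ℝ) = F.T ω := by exact_mod_cast c2
          have c3' : ((F.T w % 2 ^ (J - (v + K)) : ℕ) : ℝ) < 2 ^ (J - (v + K)) := by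
            exact_mod_cast c3
          have c4' : ((F.T ω % 2 ^ (J - (v + K)) : ℕ) : ℝ) < 2 ^ (J - (v + K)) := by
            exact_mod_cast c4
          have c5 : (0 : ℝ) ≤ ((F.T w % 2 ^ (J - (v + K)) : ℕ) : ℝ) := Nat.cast_nonneg _
          have c6 : (0 : ℝ) ≤ ((F.T ω % 2 ^ (J - (v + K)) : ℕ) : ℝ) := Nat.cast_nonneg _
          rw [← c1', ← c2', Nat.cast_add, Nat.cast_add, abs_lt]
          constructor <;> linarith
        rw [if_pos b2]
        split_ifs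
        · exact le_rfl
        · exact cond_nonneg hp _ _ w
      · rw [if_neg (fun b3 => b1 (by exact_mod_cast (show ((F.T1 (v + K) w : ℕ) : ℤ) =
          ((F.T1 (v + K) ω : ℕ) : ℤ) from b3)))]
        split_ifs
        · exact cond_nonneg hp _ _ w
        · exact le_rfl
    refine a1.trans ?_
    exact mul_le_mul_of_nonneg_left (a2.trans a3) (by norm_num)
  have h3 : ∑ v ∈ (Ico 0 J).filter (fun v => v + K ≤ J),
      Ex F.p (fun ω => ∑ w, if |(F.T w : ℝ) - F.T ω| < 2 ^ (J - (v + K)) then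
            cond F.p (fun w => (F.T1 v w, (F.l w, F.Z w))) (F.T1 v ω, (F.l ω, F.Z ω)) w else 0) ≤
      n + (r + η) * J + (ρ * J + K * e / ρ) := by
    have b1 : ∑ v ∈ (Ico 0 J).filter (fun v => v + K ≤ J),
      Ex F.p (fun ω => ∑ w, if |(F.T w : ℝ) - F.T ω| < 2 ^ (J - (v + K)) then
            cond F.p (fun w => (F.T1 v w, (F.l w, F.Z w))) (F.T1 v ω, (F.l ω, F.Z ω)) w else 0) =
        Ex F.p (fun ω => ∑ v ∈ (Ico 0 J).filter (fun v => v + K ≤ J),
          ∑ w, if |(F.T w : ℝ) - F.T ω| < 2 ^ (J - (v + K)) then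
            cond F.p (fun w => (F.T1 v w, (F.l w, F.Z w))) (F.T1 v ω, (F.l ω, F.Z ω)) w
              else 0) := by
      unfold Ex
      rw [Finset.sum_comm]
      exact Finset.sum_congr rfl fun ω _ => (Finset.mul_sum _ _ _).symm
    rw [b1]
    have b2 : Ex F.p (fun ω => n + (r + η) * J + g ω) ≤
        n + (r + η) * J + (ρ * J + K * e / ρ) := by
      have b3 : Ex F.p (fun ω => n + (r + η) * J + g ω) = n + (r + η) * J + Ex F.p g := by
        have b4 := Ex_const F.isLaw.sum_one (n + (r + η) * J)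
        unfold Ex at b4 ⊢
        simp only [mul_add, Finset.sum_add_distrib] at b4 ⊢
        linarith
      rw [b3]
      linarith
    refine le_trans (Ex_mono hp fun ω hω => ?_) b2
    have b5 := hgp ω hω 0 J (Nat.zero_le _) le_rfl
    have b6 : ((J : ℝ) - ((0 : ℕ) : ℝ)) = J := by simp
    rw [b6] at b5
    exact b5
  refine h1.trans ?_
  have h4 := Finset.sum_le_sum h2
  rw [← Finset.mul_sum] at h4
  have h5 : 3 * ∑ v ∈ (Ico 0 J).filter (fun v => v + K ≤ J),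
      Ex F.p (fun ω => ∑ w, if |(F.T w : ℝ) - F.T ω| < 2 ^ (J - (v + K)) then
            cond F.p (fun w => (F.T1 v w, (F.l w, F.Z w))) (F.T1 v ω, (F.l ω, F.Z ω)) w else 0) ≤
      3 * (n + (r + η) * J + (ρ * J + K * e / ρ)) := by linarith
  have h6 := mul_le_mul_of_nonneg_left (h4.trans h5) (by positivity : 0 ≤ 1 / η')
  refine h6.trans (le_of_eq ?_)
  ring

end Pool.KA
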