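import Pool.Agent.H85.PC.Reg0
import Pool.Agent.H85.PC.Rou
import Pool.Agent.H85.TG.DSU
import Pool.Agent.H58.KMF.LKG

/-!
# The class of Plan C is not empty

If `LKG` fails, then there are families with a trivial side information, rounded lines, regular
entropies, times with live windows (pointwise), such that all labels of all large events are
expensive.
-/

set_option autoImplicit false

namespace Pool.PC

open Finset Real
open Pool.Agent.H49.Ent Pool.Agent.H32.Dense Pool.STK Pool.KA Pool.KSAT Pool.K2S Pool.LK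

variable {m J : ℕ}

/-- Markov's inequality. -/
theorem pe_markov {Ω : Type} [Fintype Ω] {p : Ω → ℝ} (hp : IsLaw p) (f : Ω → ℝ)
    (hf : ∀ ω, 0 < p ω → 0 ≤ f ω) {s E : ℝ} (hs : 0 < s) (hE : Ex p f ≤ E) :
    Pe p (fun ω => s < f ω) ≤ E / s := by
  classical
  rw [le_div_iff₀ hs, Pool.K2S.Pe_eq, Finset.sum_mul]
  refine le_trans (Finset.sum_le_sum fun ω _ => ?_) hE
  split_ifs with h
  · exact mul_le_mul_of_nonneg_left h.le (hp.nonneg ω)
  · rw [zero_mul]
    rcases (hp.nonneg ω).eq_or_lt with h0 | h0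
    · rw [← h0, zero_mul]
    · exact mul_nonneg h0.le (hf ω h0)

/-- The pigeonhole principle. -/
theorem pe_pig85 {Ω : Type} [Fintype Ω] {p : Ω → ℝ} (g : Ω → Prop) {N : ℕ}
    (i : Ω → Fin (N + 1)) {s : ℝ} (hg : s ≤ Pe p g) :
    ∃ k, s / (N + 1) ≤ Pe p (fun ω => g ω ∧ i ω = k) := by
  classical
  by_contra hcon
  push Not at hcon
  have h1 : Pe p g = ∑ k, Pe p (fun ω => g ω ∧ i ω = k) := by
    simp only [Pool.K2S.Pe_eq]
    rw [Finset.sum_comm]
    refine Finset.sum_congr rfl fun ω _ => ?_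
    by_cases h : g ω
    · rw [if_pos h, Finset.sum_eq_single_of_mem (i ω) (Finset.mem_univ _)]
      · rw [if_pos ⟨h, rfl⟩]
      · intro k _ hk
        rw [if_neg (fun h2 => hk h2.2.symm)]
    · rw [if_neg h, Finset.sum_eq_zero]
      intro k _
      rw [if_neg (fun h2 => h h2.1)]
  have h2 : ∑ k : Fin (N + 1), Pe p (fun ω => g ω ∧ i ω = k) < ∑ _k : Fin (N + 1), s / (N + 1) :=
    Finset.sum_lt_sum_of_nonempty ⟨0, Finset.mem_univ _⟩ fun k _ => hcon k
  rw [Finset.sum_const, Finset.card_univ, Fintype.card_fin, nsmul_eq_mul] at h2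
  have h3 : ((N + 1 : ℕ) : ℝ) * (s / (N + 1)) = s := by
    push_cast
    field_simp
  linarith only [hg, h1, h2, h3]

theorem nbad_le_all (μ : ℕ → ℝ) (J K : ℕ) (η : ℝ) (t a b : ℕ) (hb : b ≤ J) :
    nbad μ J K η t a b ≤ nbad μ J K η t 0 J := by
  unfold nbad
  refine Finset.card_le_card fun v hv => ?_
  rw [Finset.mem_filter, Finset.mem_Ico] at hv ⊢
  exact ⟨⟨Nat.zero_le _, by omega⟩, hv.2⟩

theorem isLaw_of_pe {Ω : Type} [Fintype Ω] {p : Ω → ℝ} (hp : IsLaw p) {A : Ω → Prop}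
    (h : 0 < Pe p A) : IsLaw (Pool.Agent.H49.Ent.cond p A True) :=
  ⟨cond_nonneg hp.nonneg A True, sum_cond p A h.ne'⟩

open Classical in
/-- The last steps: buckets, types, half of an event. -/
theorem reg_core (m : ℕ) {b ε ρ B₀ η τ : ℝ} (hε : 0 < ε) (hρ : 0 < ρ) (hB₀ : 0 < B₀)
    (hη : 0 < η) (hτ : 0 < τ) : ∃ J₃ : ℕ, ∀ J ≥ J₃, ∀ (K : ℕ) (G : Fam m J), G.Tr →
      (∀ i, H G.p (REX.lst G i) ≤ B₀ * J) →
      Ex G.p (fun ω => (nbad (G.ek ω) J K η (G.T ω) 0 J : ℝ)) ≤ ρ / 4 * (η * J) →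
      ∀ (A : G.Ω → Prop) (hA : IsLaw (Pool.Agent.H49.Ent.cond G.p A True)), ρ ≤ Pe G.p A →
      (∀ (A' : G.Ω → Prop) (h' : IsLaw (Pool.Agent.H49.Ent.cond (G.res A True hA).p A' True)),
          ∀ B : Lbl ((G.res A True hA).res A' True h') b,
            vi ((G.res A True hA).res A' True h') + ε / 8 * J +
              2 * Real.log (Pe (G.res A True hA).p A') ≤ B.cost) →
      ∃ F : Fam m J, F.Tr ∧ F.TGD False K η 0 (η * J) (τ * J) ∧
        F.TGR False K η 0 (η * J) (τ * J) ∧ F.Rb (τ * J) ∧ Umv F b (ε / 16) (ε / 64) := by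
  have hl2 : 0 < Real.log 2 := Real.log_pos (by norm_num)
  -- the buckets
  obtain ⟨L, hL⟩ : ∃ L : ℝ, L = 4 * Real.log 2 / ρ := ⟨_, rfl⟩
  have hL0 : 0 < L := by rw [hL]; positivity
  obtain ⟨N, hN⟩ := exists_nat_ge (L / τ)
  obtain ⟨ρ₂, hρ₂⟩ : ∃ ρ₂ : ℝ, ρ₂ = 1 / 2 / (N + 1) := ⟨_, rfl⟩
  have hρ₂0 : 0 < ρ₂ := by rw [hρ₂]; positivity
  -- the types
  obtain ⟨M, hM⟩ := rty_thm 5 (B₀ / ρ / ρ₂) (τ / 8) (1 / 2) (by positivity) (by positivity)
    (by norm_num)
  have hMp : (0 : ℝ) < 2 * ((M : ℝ) + 1) := by positivity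
  obtain ⟨ρ₃, hρ₃⟩ : ∃ ρ₃ : ℝ, ρ₃ = 1 / (2 * ((M : ℝ) + 1)) := ⟨_, rfl⟩
  have hρ₃0 : 0 < ρ₃ := by rw [hρ₃]; positivity
  obtain ⟨ρ₄, hρ₄⟩ : ∃ ρ₄ : ℝ, ρ₄ = ρ * ρ₂ * ρ₃ / 2 := ⟨_, rfl⟩
  have hρ₄0 : 0 < ρ₄ := by rw [hρ₄]; positivity
  obtain ⟨J₁, hJ₁⟩ := exists_nat_ge (-Real.log ρ₄ / τ)
  obtain ⟨J₂, hJ₂⟩ := exists_nat_ge (-Real.log ρ₄ * 64 / ε)
  obtain ⟨J₃, hJ₃⟩ := exists_nat_ge (4 * Real.log 2 / τ)
  obtain ⟨J₄, hJ₄⟩ := exists_nat_ge (-Real.log ρ₃ * 8 / τ)
  refine ⟨J₁ + J₂ + J₃ + J₄ + 1, fun J hJ K G hTr hent hnb A hA hPA humx => ?_⟩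
  have hJr : (1 : ℝ) ≤ J := by exact_mod_cast (by omega : 1 ≤ J)
  have hJp : (0 : ℝ) < J := by linarith only [hJr]
  have k1 : -Real.log ρ₄ ≤ τ * J := by
    have h := hJ₁.trans (by exact_mod_cast (by omega : J₁ ≤ J) : (J₁ : ℝ) ≤ J)
    rw [div_le_iff₀ hτ] at h
    linarith only [h]
  have k2 : -Real.log ρ₄ * 64 ≤ ε * J := by
    have h := hJ₂.trans (by exact_mod_cast (by omega : J₂ ≤ J) : (J₂ : ℝ) ≤ J)
    rw [div_le_iff₀ hε] at h
    linarith only [h]
  have k3 : 4 * Real.log 2 ≤ τ * J := by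
    have h := hJ₃.trans (by exact_mod_cast (by omega : J₃ ≤ J) : (J₃ : ℝ) ≤ J)
    rw [div_le_iff₀ hτ] at h
    linarith only [h]
  have k4 : -Real.log ρ₃ * 8 ≤ τ * J := by
    have h := hJ₄.trans (by exact_mod_cast (by omega : J₄ ≤ J) : (J₄ : ℝ) ≤ J)
    rw [div_le_iff₀ hτ] at h
    linarith only [h]
  have hp := G.isLaw
  have h0 := hp.nonneg
  have hK := ek_ker G
  have hητ : 0 < η * J := by positivity
  have hLJ : 0 < L * J := by positivity
  have hτJ : 0 < τ * J := by positivity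
  -- the information
  obtain ⟨f, hf⟩ : ∃ f : G.Ω → ℝ, f = fun ω => -Real.log (G.ek ω (G.T ω)) := ⟨_, rfl⟩
  have hf0 : ∀ ω, 0 < G.p ω → 0 ≤ f ω := by
    intro ω hω
    rw [hf]
    have h1 : G.ek ω (G.T ω) ≤ 1 :=
      (Finset.single_le_sum (f := fun t => G.ek ω t) (fun t _ => ek_nonneg G ω t)
        (Finset.mem_range.2 (G.tim ω))).trans (hK.sum ω)
    have h2 := Real.log_nonpos (ek_nonneg G ω _) h1
    linarith only [h2]
  have hfE : Ex G.p f ≤ J * Real.log 2 := by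
    have h1 := ek_kl G
    unfold Fam.kl at h1
    have h2 := TRC.CH_lt hp G.T (fun ω => (G.l ω, G.Z ω)) J G.tim
    rw [hf]
    linarith only [h1, h2]
  -- two bad events
  have s1 : Pe G.p (fun ω => η * J < (nbad (G.ek ω) J K η (G.T ω) 0 J : ℝ)) ≤ ρ / 4 := by
    refine (pe_markov hp (fun ω => (nbad (G.ek ω) J K η (G.T ω) 0 J : ℝ))
      (fun ω _ => Nat.cast_nonneg _) hητ hnb).trans (le_of_eq ?_)
    field_simp
  have s2 : Pe G.p (fun ω => L * J < f ω) ≤ ρ / 4 := by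
    refine (pe_markov hp f hf0 hLJ hfE).trans (le_of_eq ?_)
    rw [hL]
    field_simp
  obtain ⟨q, hq⟩ : ∃ q, q = Pool.Agent.H49.Ent.cond G.p A True := ⟨_, rfl⟩
  have hql : IsLaw q := by rw [hq]; exact hA
  have hqle : ∀ S : G.Ω → Prop, Pe q S * ρ ≤ Pe G.p S := by
    intro S
    have h1 := REXL.Pe_and hp A S
    rw [← hq] at h1
    have h2 : Pe G.p (fun ω => A ω ∧ S ω) ≤ Pe G.p S := Pe_mono hp fun ω h => h.2
    have h3 := mul_le_mul_of_nonneg_left hPA (Pe_nonneg hql S)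
    linarith only [h1, h2, h3]
  obtain ⟨g, hg⟩ : ∃ g : G.Ω → Prop, g = fun ω =>
      ¬ (η * J < (nbad (G.ek ω) J K η (G.T ω) 0 J : ℝ)) ∧ ¬ (L * J < f ω) := ⟨_, rfl⟩
  have hgP : 1 / 2 ≤ Pe q g := by
    have h1 := hqle (fun ω => η * J < (nbad (G.ek ω) J K η (G.T ω) 0 J : ℝ))
    have h2 := hqle (fun ω => L * J < f ω)
    have h3 : Pe q (fun ω => η * J < (nbad (G.ek ω) J K η (G.T ω) 0 J : ℝ)) ≤ 1 / 4 := by
      have h4 := h1.trans s1
      rw [div_eq_mul_inv, mul_comm ρ] at h4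
      have := le_of_mul_le_mul_right h4 hρ
      linarith only [this]
    have h4 : Pe q (fun ω => L * J < f ω) ≤ 1 / 4 := by
      have h4 := h2.trans s2
      rw [div_eq_mul_inv, mul_comm ρ] at h4
      have := le_of_mul_le_mul_right h4 hρ
      linarith only [this]
    have h5 : (1 : ℝ) ≤ Pe q g + Pe q (fun ω => η * J < (nbad (G.ek ω) J K η (G.T ω) 0 J : ℝ)) +
        Pe q (fun ω => L * J < f ω) := by
      rw [← hql.sum_one, Pool.K2S.Pe_eq, Pool.K2S.Pe_eq, Pool.K2S.Pe_eq,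
        ← Finset.sum_add_distrib, ← Finset.sum_add_distrib]
      refine Finset.sum_le_sum fun ω _ => ?_
      have h6 := hql.nonneg ω
      by_cases a1 : η * J < (nbad (G.ek ω) J K η (G.T ω) 0 J : ℝ)
      · rw [if_pos a1]
        split_ifs <;> linarith
      · by_cases a2 : L * J < f ω
        · rw [if_pos a2]
          split_ifs <;> linarith
        · have a3 : g ω := by rw [hg]; exact ⟨a1, a2⟩
          rw [if_pos a3]
          split_ifs <;> linarith only
    linarith only [h3, h4, h5]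
  -- the bucket
  obtain ⟨k, hk⟩ := pe_pig85 (p := q) g (N := N)
    (fun ω => ⟨min ⌊f ω / (τ * J)⌋₊ N, by omega⟩) hgP
  obtain ⟨E₁, hE₁⟩ : ∃ E₁ : G.Ω → Prop, E₁ = fun ω => g ω ∧
      (⟨min ⌊f ω / (τ * J)⌋₊ N, by omega⟩ : Fin (N + 1)) = k := ⟨_, rfl⟩
  rw [← hE₁, ← hρ₂] at hk
  have hE₁pos : 0 < Pe q E₁ := by linarith only [hρ₂0, hk]
  obtain ⟨q₁, hq₁⟩ : ∃ q₁, q₁ = Pool.Agent.H49.Ent.cond q E₁ True := ⟨_, rfl⟩
  have hq₁l : IsLaw q₁ := by rw [hq₁]; exact isLaw_of_pe hql hE₁pos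
  -- the type
  have hent1 : ∀ i, H q₁ (REX.lst G i) ≤ B₀ / ρ / ρ₂ * J := by
    intro i
    have h1 := REXL.H_cond_le hp A hρ hPA (REX.lst G i) (hent i)
    rw [← hq] at h1
    have h2 := REXL.H_cond_le hql E₁ hρ₂0 hk (REX.lst G i) h1
    rw [← hq₁] at h2
    refine h2.trans (le_of_eq ?_)
    ring
  obtain ⟨t, bad, hbad, ht⟩ := hM J (by omega) G.Ω (REX.S m) q₁ hq₁l (REX.lst G) hent1
  obtain ⟨k', hk', hkp⟩ : ∃ k', k' ≠ bad ∧ ρ₃ ≤ law q₁ t k' := by
    by_contra hcon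
    push Not at hcon
    have h1 : ∑ k', law q₁ t k' = 1 := law_sum_one hq₁l t
    have h2 : ∑ k', law q₁ t k' = law q₁ t bad + ∑ k' ∈ univ.erase bad, law q₁ t k' := by
      rw [Finset.add_sum_erase _ _ (Finset.mem_univ bad)]
    have h3 : ∑ k' ∈ univ.erase bad, law q₁ t k' ≤
        ∑ k' ∈ (univ : Finset (Fin M)).erase bad, ρ₃ :=
      Finset.sum_le_sum fun k' hk' => (hcon k' (Finset.ne_of_mem_erase hk')).le
    rw [Finset.sum_const, nsmul_eq_mul] at h3
    have h4 : (((univ : Finset (Fin M)).erase bad).card : ℝ) ≤ M := by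
      have : ((univ : Finset (Fin M)).erase bad).card ≤ (univ : Finset (Fin M)).card :=
        Finset.card_le_card (Finset.erase_subset _ _)
      rw [Finset.card_univ, Fintype.card_fin] at this
      exact_mod_cast this
    have h5 : (((univ : Finset (Fin M)).erase bad).card : ℝ) * ρ₃ ≤ M * ρ₃ :=
      mul_le_mul_of_nonneg_right h4 hρ₃0.le
    have h6 : (M : ℝ) * ρ₃ < 1 / 2 := by
      rw [hρ₃, mul_one_div, div_lt_div_iff₀ hMp (by norm_num)]
      linarith only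
    linarith only [hbad, h1, h2, h3, h5, h6]
  have hPt : ρ₃ ≤ Pe q₁ (fun ω => t ω = k') := by
    have h1 : Pe q₁ (fun ω => t ω = k') = law q₁ t k' := RMX.law_prop q₁ t k'
    rw [h1]
    exact hkp
  have hexp : Real.exp (-(τ / 8 * J)) ≤ ρ₃ := by
    rw [← Real.le_log_iff_exp_le hρ₃0]
    linarith only [k4]
  -- the event
  obtain ⟨E, hE⟩ : ∃ E : G.Ω → Prop, E = fun ω => (A ω ∧ E₁ ω) ∧ t ω = k' := ⟨_, rfl⟩
  have hPE : ρ * ρ₂ * ρ₃ ≤ Pe G.p E := by
    have h1 := REXL.Pe_and hp A E₁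
    rw [← hq] at h1
    have e1 : q₁ = Pool.Agent.H49.Ent.cond G.p (fun ω => A ω ∧ E₁ ω) True := by
      rw [hq₁, hq]
      exact REXL.cond_and h0 A E₁
    have h2 := REXL.Pe_and hp (fun ω => A ω ∧ E₁ ω) (fun ω => t ω = k')
    rw [← e1] at h2
    rw [hE, ← h2, ← h1]
    have h3 : ρ * ρ₂ ≤ Pe q E₁ * Pe G.p A := by
      rw [mul_comm ρ]
      exact mul_le_mul hk hPA hρ.le hE₁pos.le
    rw [mul_comm (ρ * ρ₂)]
    exact mul_le_mul hPt h3 (by positivity) (hρ₃0.le.trans hPt)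
  have hPE0 : 0 < Pe G.p E := lt_of_lt_of_le (by positivity) hPE
  -- half of it
  obtain ⟨U, hUE, hUh, hUc⟩ := cpr_half hp G.T (fun w => (G.l w, G.Z w)) E hPE0
  have hPU : ρ₄ ≤ Pe G.p U := by
    have : ρ₄ ≤ Pe G.p E / 2 := by rw [hρ₄]; linarith only [hPE]
    exact this.trans hUh
  have hPU0 : 0 < Pe G.p U := by linarith only [hρ₄, hρ₄0, hPE, hUh]
  have hUA : (fun ω => A ω ∧ U ω) = U := by
    funext ω
    refine propext ⟨fun h => h.2, fun h => ⟨?_, h⟩⟩
    have h1 := hUE ω h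
    rw [hE] at h1
    exact h1.1.1
  have hqU : Pe G.p U ≤ Pe q U := by
    have h1 := REXL.Pe_and hp A U
    rw [← hq, hUA] at h1
    rw [← h1]
    have h2 : Pe G.p A ≤ 1 := by
      have := Pe_mono hp (A := fun _ : G.Ω => True) (B := A) fun _ _ => trivial
      rwa [Pe_univ hp] at this
    have h3 := mul_le_mul_of_nonneg_left h2 (Pe_nonneg hql U)
    linarith only [h3]
  have hqU0 : 0 < Pe q U := by linarith only [hρ₄, hρ₄0, hPE, hUh, hqU]
  have hUl : IsLaw (Pool.Agent.H49.Ent.cond (G.res A True hA).p U True) := by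
    have h1 := isLaw_of_pe hql hqU0
    rw [hq] at h1
    exact h1
  have ecd : Pool.Agent.H49.Ent.cond (Pool.Agent.H49.Ent.cond G.p A True) U True =
      Pool.Agent.H49.Ent.cond G.p U True := by
    have h1 := REXL.cond_and h0 A U
    rw [hUA] at h1
    exact h1
  have hposU : ∀ ω, 0 < Pool.Agent.H49.Ent.cond G.p U True ω → 0 < G.p ω ∧ U ω := by
    intro ω hω
    have h1 := (cond_pos_iff h0 U True ω).1 hω
    exact ⟨h1.1, of_eq_true h1.2⟩
  have hFp : ((G.res A True hA).res U True hUl).p = Pool.Agent.H49.Ent.cond G.p U True := ecd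
  have hpos : ∀ ω, 0 < ((G.res A True hA).res U True hUl).p ω → 0 < G.p ω ∧ U ω := by
    intro ω hω
    rw [hFp] at hω
    exact hposU ω hω
  have hgU : ∀ ω, U ω → g ω ∧ (⟨min ⌊f ω / (τ * J)⌋₊ N, by omega⟩ : Fin (N + 1)) = k := by
    intro ω h
    have h1 := hUE ω h
    rw [hE] at h1
    have h2 := h1.1.2
    rw [hE₁] at h2
    exact h2
  -- the kernel
  have hKF : ((G.res A True hA).res U True hUl).Ker G.ek :=
    (hK.res A True hA).res U True hUl
  have hLive : ((G.res A True hA).res U True hUl).Live G.ek K η 0 (η * J) := by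
    intro ω hω a b' _ hb'
    obtain ⟨h1, h2⟩ := hpos ω hω
    have h3 := (hgU ω h2).1
    rw [hg] at h3
    have h4 := not_lt.1 h3.1
    have h5 : (nbad (G.ek ω) J K η (G.T ω) a b' : ℝ) ≤
        (nbad (G.ek ω) J K η (G.T ω) 0 J : ℝ) := by
      exact_mod_cast nbad_le_all _ _ _ _ _ _ _ hb'
    have h6 : (nbad (G.ek ω) J K η (G.T ω) a b' : ℝ) ≤ η * J + 0 * ((b' : ℝ) - a) := by
      linarith only [h3, h5]
    exact h6
  have hlog : Real.log (2 / Pe G.p E) ≤ τ * J := by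
    have h1 : 2 / Pe G.p E ≤ 1 / ρ₄ := by
      rw [div_le_div_iff₀ hPE0 hρ₄0, hρ₄]
      linarith only [hPE]
    have h2 := Real.log_le_log (by positivity) h1
    rw [one_div, Real.log_inv] at h2
    linarith only [k1, h2]
  have hDom : ((G.res A True hA).res U True hUl).Dom G.ek (τ * J) := by
    intro ω hω
    have hω' : 0 < Pool.Agent.H49.Ent.cond G.p U True ω := by rw [← hFp]; exact hω
    have h1 := hUc ω hω'
    have h2 : cpr ((G.res A True hA).res U True hUl).p G.T (fun w => (G.l w, G.Z w)) ω ≤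
        Real.exp (τ * J) * G.ek ω (G.T ω) := by
      rw [hFp]
      refine h1.trans ?_
      have h3 : cpr G.p G.T (fun w => (G.l w, G.Z w)) ω = G.ek ω (G.T ω) := rfl
      rw [h3]
      refine mul_le_mul_of_nonneg_right ?_ (ek_nonneg G ω _)
      rw [← Real.log_le_iff_le_exp (by positivity)]
      exact hlog
    exact h2
  have hkl : ((G.res A True hA).res U True hUl).kl G.ek ≤ τ * J := by
    have h1 := cpr_res hp G.T (fun w => (G.l w, G.Z w)) U hPU0
    have h2 : ((G.res A True hA).res U True hUl).kl G.ek =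
        Ex (Pool.Agent.H49.Ent.cond G.p U True)
          (fun ω => -Real.log (cpr G.p G.T (fun w => (G.l w, G.Z w)) ω)) -
        CH (Pool.Agent.H49.Ent.cond G.p U True) G.T (fun w => (G.l w, G.Z w)) := by
      have h3 : ((G.res A True hA).res U True hUl).kl G.ek =
          Ex ((G.res A True hA).res U True hUl).p
            (fun ω => -Real.log (cpr G.p G.T (fun w => (G.l w, G.Z w)) ω)) -
          CH ((G.res A True hA).res U True hUl).p G.T (fun w => (G.l w, G.Z w)) := rfl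
      rw [h3, hFp]
      rfl
    rw [h2]
    refine h1.trans ?_
    have h4 := Real.log_le_log hρ₄0 hPU
    linarith only [k1, h4]
  have hRk : ((G.res A True hA).res U True hUl).Rk G.ek (τ * J) := by
    refine ⟨(k : ℕ) * (τ * J), fun ω hω => ?_⟩
    obtain ⟨h1, h2⟩ := hpos ω hω
    obtain ⟨h3, h4⟩ := hgU ω h2
    rw [hg] at h3
    have h5 : f ω ≤ L * J := not_lt.1 h3.2
    have h6 : f ω / (τ * J) ≤ N := by
      rw [div_le_iff₀ hτJ]
      rw [div_le_iff₀ hτ] at hN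
      have := mul_le_mul_of_nonneg_right hN hJp.le
      linarith only [h3, this]
    have h7 : ⌊f ω / (τ * J)⌋₊ ≤ N := Nat.floor_le_of_le h6
    have h8 : (k : ℕ) = ⌊f ω / (τ * J)⌋₊ := by
      rw [← h4]
      exact min_eq_left h7
    have h9 : 0 ≤ f ω / (τ * J) := div_nonneg (hf0 ω h1) hτJ.le
    have h10 := Nat.floor_le h9
    have h11 := Nat.lt_floor_add_one (f ω / (τ * J))
    rw [← h8, le_div_iff₀ hτJ] at h10
    rw [← h8, div_lt_iff₀ hτJ] at h11
    have h12 : |f ω - (k : ℕ) * (τ * J)| ≤ τ * J := by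
      rw [abs_le]
      constructor
      · linarith only [hl2, k3, h10]
      · linarith only [h11]
    rw [hf] at h12
    exact h12
  refine ⟨(G.res A True hA).res U True hUl, ?_, ⟨G.ek, hKF, fun h => h.elim, hLive, hDom⟩,
    ⟨G.ek, hKF, fun h => h.elim, hLive, hkl, hRk⟩, ?_, ?_⟩
  · obtain ⟨z, hz⟩ := hTr
    refine ⟨z, fun ω hω => hz ω ?_⟩
    have h1 : 0 < ((G.res A True hA).res U True hUl).p ω :=
      lt_of_le_of_ne (((G.res A True hA).res U True hUl).isLaw.nonneg ω) (Ne.symm hω)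
    exact (hpos ω h1).1.ne'
  · -- regularity
    have e1 : Pool.Agent.H49.Ent.cond q₁ (fun ω => t ω = k') True =
        Pool.Agent.H49.Ent.cond G.p E True := by
      rw [hq₁, hq, REXL.cond_and h0 A E₁, REXL.cond_and h0 (fun ω => A ω ∧ E₁ ω), hE]
    have hEU : (fun ω => E ω ∧ U ω) = U := by
      funext ω
      exact propext ⟨fun h => h.2, fun h => ⟨hUE ω h, h⟩⟩
    have e2 : Pool.Agent.H49.Ent.cond (Pool.Agent.H49.Ent.cond G.p E True) U True =
        Pool.Agent.H49.Ent.cond G.p U True := by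
      rw [REXL.cond_and h0 E U, hEU]
    have h3 : Real.exp (-Real.log 2) ≤ law (Pool.Agent.H49.Ent.cond G.p E True) U True := by
      rw [Real.exp_neg, Real.exp_log (by norm_num)]
      have h4 := REXL.Pe_and hp E U
      rw [hEU] at h4
      have h5 : Pe G.p E / 2 ≤ Pe (Pool.Agent.H49.Ent.cond G.p E True) U * Pe G.p E := by
        rw [h4]
        exact hUh
      have h6 : (2 : ℝ)⁻¹ * Pe G.p E ≤ Pe (Pool.Agent.H49.Ent.cond G.p E True) U * Pe G.p E := by
        linarith only [hUh, h4]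
      exact le_of_mul_le_mul_right h6 hPE0
    have hEl : IsLaw (Pool.Agent.H49.Ent.cond G.p E True) := isLaw_of_pe hp hPE0
    have hreg : ∀ i, ∃ h', Rg (Pool.Agent.H49.Ent.cond G.p U True) (REX.lst G i) h'
        (τ * J) := by
      intro i
      obtain ⟨h', hR'⟩ := ht k' hk' (hexp.trans hkp) i
      rw [← RMX.cond_prop, e1] at hR'
      have h7 := ((rhe_thm _ _ _ _ hEl (REX.lst G i) h' _ hR').2 U True (Real.log 2) h3).1
      rw [e2] at h7
      refine ⟨h', ?_, ?_⟩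
      · refine h7.1.trans (Real.exp_le_exp.2 ?_)
        linarith only [hl2, k3]
      · intro s
        refine (h7.2 s).trans (Real.exp_le_exp.2 ?_)
        linarith only [hl2, k3]
    have hreg2 : ∀ i, ∃ h', Rg ((G.res A True hA).res U True hUl).p (REX.lst G i) h'
        (τ * J) := by
      intro i
      rw [hFp]
      exact hreg i
    exact ⟨hreg2 0, hreg2 1, hreg2 2, hreg2 3, hreg2 4⟩
  · -- labels
    intro A' h' hPA' B
    have hpq : (G.res A True hA).p = q := hq.symm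
    have hFq : ((G.res A True hA).res U True hUl).p = Pool.Agent.H49.Ent.cond q U True := by
      rw [hq]
      rfl
    have h1 : Pe (G.res A True hA).p (fun ω => U ω ∧ A' ω) =
        Pe (Pool.Agent.H49.Ent.cond q U True) A' * Pe q U := by
      rw [hpq]
      exact (REXL.Pe_and hql U A').symm
    have h2 : Real.exp (-(ε / 64 * J)) ≤ Pe (Pool.Agent.H49.Ent.cond q U True) A' := by
      rw [← hFq]
      exact hPA'
    have h3 : Real.exp (-(ε / 64 * J)) * ρ₄ ≤ Pe (G.res A True hA).p (fun ω => U ω ∧ A' ω) := by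
      rw [h1]
      exact mul_le_mul h2 (hPU.trans hqU) hρ₄0.le ((Real.exp_pos _).le.trans h2)
    have h4 : 0 < Pe (G.res A True hA).p (fun ω => U ω ∧ A' ω) :=
      lt_of_lt_of_le (by positivity) h3
    have h5 : -(ε / 64 * J) + Real.log ρ₄ ≤
        Real.log (Pe (G.res A True hA).p (fun ω => U ω ∧ A' ω)) := by
      have := Real.log_le_log (by positivity) h3
      rwa [Real.log_mul (Real.exp_pos _).ne' hρ₄0.ne', Real.log_exp] at this
    have h'' : IsLaw (Pool.Agent.H49.Ent.cond (G.res A True hA).p (fun ω => U ω ∧ A' ω) True) :=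
      isLaw_of_pe (G.res A True hA).isLaw h4
    have h6 := res2_cost (F := G.res A True hA) (v := ε / 16 * J) U A' hUl h' h'' (fun L => by
      have h7 := humx (fun ω => U ω ∧ A' ω) h'' L
      have h8 : ε / 16 * J ≤ ε / 8 * J +
          2 * Real.log (Pe (G.res A True hA).p (fun ω => U ω ∧ A' ω)) := by linarith only [hA, k2, h5]
      exact le_trans (by rw [add_assoc]; exact add_le_add_right h8 _) h7) B
    exact h6

end Pool.PC
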