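import Pool.Agent.H54.PC.Cnt
import Pool.Agent.H85.PC.Reg
import Pool.Agent.H53.LK.Rexl

/-!
# Plan C: the entropy is large if no large part has few values
-/

set_option autoImplicit false

namespace Pool.PC

open Finset Real
open Pool.Agent.H49.Ent Pool.Agent.H32.Dense Pool.STK Pool.KA Pool.KSAT Pool.K2S Pool.LK

variable {m J : ℕ}

theorem sum_law_le {Ω S U : Type} [Fintype Ω] {p : Ω → ℝ} (hp : ∀ ω, 0 ≤ p ω) (X : Ω → S)
    (W : Ω → U) (w : U) (I : Finset S) :
    ∑ b ∈ I, law p (fun ω => (X ω, W ω)) (b, w) ≤ law p W w := by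
  classical
  unfold law
  rw [Finset.sum_comm]
  refine Finset.sum_le_sum fun ω _ => ?_
  by_cases hw : W ω = w
  · rw [if_pos hw]
    by_cases hI : X ω ∈ I
    · rw [Finset.sum_eq_single (X ω)]
      · rw [if_pos (show (X ω, W ω) = (X ω, w) by rw [hw])]
      · intro b _ hb
        rw [if_neg]
        intro h
        exact hb (Prod.ext_iff.1 h).1.symm
      · intro h
        exact absurd hI h
    · rw [Finset.sum_eq_zero]
      · exact hp ω
      · intro b hb
        rw [if_neg]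
        intro h
        refine hI ?_
        rw [show X ω = b from (Prod.ext_iff.1 h).1]
        exact hb
  · rw [if_neg hw]
    refine le_of_eq (Finset.sum_eq_zero fun b _ => ?_)
    rw [if_neg]
    intro h
    exact hw (Prod.ext_iff.1 h).2

/-- Few values of large conditional probability. -/
theorem cnt_of_cpr {F : Fam m J} {E G : F.Ω → Prop} (hE : 0 < Pe F.p E) {α β : Type}
    (P : F.Ω → α) (o : F.Ω → β) {a : ℝ} (hG : ∀ ω, On F G ω → E ω ∧
      Real.exp (-a) ≤ cpr (Pool.Agent.H49.Ent.cond F.p E True) o P ω) :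
    Cnt F G P o (Real.exp a) := by
  classical
  obtain ⟨p, hp⟩ : ∃ p : F.Ω → ℝ, p = Pool.Agent.H49.Ent.cond F.p E True := ⟨_, rfl⟩
  rw [← hp] at hG
  have hl : IsLaw p := by rw [hp]; exact isLaw_cond F.isLaw hE
  intro ω₀ h0
  have hpos : 0 < p ω₀ := by
    rw [hp]
    exact (cond_pos_iff F.isLaw.nonneg E True ω₀).2 ⟨h0.1, eq_true (hG ω₀ h0).1⟩
  have hlP : 0 < law p P (P ω₀) := law_pos hl.nonneg P hpos
  obtain ⟨I, hI⟩ : ∃ I : Finset β, I = (univ.filter fun ω => On F G ω ∧ P ω = P ω₀).image o :=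
    ⟨_, rfl⟩
  rw [← hI]
  have h1 : ∀ b ∈ I, Real.exp (-a) * law p P (P ω₀) ≤ law p (fun ω => (o ω, P ω)) (b, P ω₀) := by
    intro b hb
    rw [hI, mem_image] at hb
    obtain ⟨ω, hω, rfl⟩ := hb
    rw [mem_filter] at hω
    have h2 := (hG ω hω.2.1).2
    unfold cpr at h2
    rw [hω.2.2] at h2
    rwa [le_div_iff₀ hlP] at h2
  have h2 := (Finset.sum_le_sum h1).trans (sum_law_le hl.nonneg o P (P ω₀) I)
  rw [Finset.sum_const, nsmul_eq_mul] at h2
  have h3 : (I.card : ℝ) * Real.exp (-a) ≤ 1 := by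
    by_contra hcon
    push Not at hcon
    nlinarith
  have h4 : Real.exp (-a) * Real.exp a = 1 := by rw [← Real.exp_add]; simp
  calc (I.card : ℝ) = I.card * (Real.exp (-a) * Real.exp a) := by rw [h4, mul_one]
    _ = (I.card * Real.exp (-a)) * Real.exp a := by ring
    _ ≤ 1 * Real.exp a := mul_le_mul_of_nonneg_right h3 (Real.exp_pos _).le
    _ = Real.exp a := one_mul _

/-- **The entropy is large** if no part of probability `θ` has few values. -/
theorem ent_low {F : Fam m J} {E : F.Ω → Prop} (hE : 0 < Pe F.p E) {α β : Type}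
    (P : F.Ω → α) (o : F.Ω → β) {a θ : ℝ} (ha : 0 ≤ a)
    (h : ∀ G : F.Ω → Prop, (∀ ω, G ω → E ω) → θ * Pe F.p E ≤ Pe F.p G →
      ¬ Cnt F G P o (Real.exp a)) :
    (1 - θ) * a ≤ CH (Pool.Agent.H49.Ent.cond F.p E True) o P := by
  classical
  obtain ⟨p, hp⟩ : ∃ p : F.Ω → ℝ, p = Pool.Agent.H49.Ent.cond F.p E True := ⟨_, rfl⟩
  have hl : IsLaw p := by rw [hp]; exact isLaw_cond F.isLaw hE
  obtain ⟨f, hf⟩ : ∃ f : F.Ω → ℝ, f = fun ω => -Real.log (cpr p o P ω) := ⟨_, rfl⟩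
  have hc : CH p o P = Ex p f := by
    rw [hf]
    exact CH_eq_neg_sum hl.nonneg o P
  have hc0 : ∀ ω, 0 < p ω → 0 < cpr p o P ω ∧ cpr p o P ω ≤ 1 := by
    intro ω hω
    have c1 : 0 < law p (fun ω => (o ω, P ω)) (o ω, P ω) :=
      law_pos hl.nonneg (fun ω => (o ω, P ω)) hω
    have c2 : 0 < law p P (P ω) := law_pos hl.nonneg P hω
    have c3 : law p (fun ω => (o ω, P ω)) (o ω, P ω) ≤ law p P (P ω) := by
      have := sum_law_le hl.nonneg o P (P ω) {o ω}
      rwa [Finset.sum_singleton] at this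
    refine ⟨div_pos c1 c2, ?_⟩
    unfold cpr
    rw [div_le_one c2]
    exact c3
  have hf0 : ∀ ω, 0 < p ω → 0 ≤ f ω := by
    intro ω hω
    rw [hf]
    have := Real.log_nonpos (hc0 ω hω).1.le (hc0 ω hω).2
    show 0 ≤ -Real.log (cpr p o P ω)
    linarith
  rw [← hp, hc]
  rcases ha.eq_or_lt with h0 | h0
  · rw [← h0, mul_zero]
    unfold Ex
    refine Finset.sum_nonneg fun ω _ => ?_
    rcases (hl.nonneg ω).eq_or_lt with h1 | h1
    · rw [← h1, zero_mul]
    · exact mul_nonneg h1.le (hf0 ω h1)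
  have h1 : Cnt F (fun ω => E ω ∧ ¬ a < f ω) P o (Real.exp a) := by
    refine cnt_of_cpr hE P o fun ω hω => ⟨hω.2.1, ?_⟩
    have h2 := hω.2.2
    have hω2 : 0 < p ω := by
      rw [hp]
      exact (cond_pos_iff F.isLaw.nonneg E True ω).2 ⟨hω.1, eq_true hω.2.1⟩
    rw [← hp]
    have h3 := (hc0 ω hω2).1
    rw [← Real.exp_log h3]
    refine Real.exp_le_exp.2 ?_
    rw [hf] at h2
    push Not at h2
    linarith
  have h2 : Pe F.p (fun ω => E ω ∧ ¬ a < f ω) < θ * Pe F.p E := by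
    by_contra hcon
    exact h _ (fun ω hω => hω.1) (not_lt.1 hcon) h1
  have h4 := REXL.Pe_and F.isLaw E (fun ω => ¬ a < f ω)
  rw [← hp] at h4
  rw [← h4] at h2
  have h3 : Pe p (fun ω => ¬ a < f ω) < θ := lt_of_mul_lt_mul_right h2 hE.le
  have h5 : Pe p (fun ω => a < f ω) + Pe p (fun ω => ¬ a < f ω) = 1 := by
    rw [Pe_eq, Pe_eq, ← Finset.sum_add_distrib, ← hl.sum_one]
    refine Finset.sum_congr rfl fun ω _ => ?_
    by_cases hω : a < f ω
    · rw [if_pos hω, if_neg (fun h => h hω), add_zero]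
    · rw [if_neg hω, if_pos hω, zero_add]
  have h6 := pe_markov hl f hf0 h0 le_rfl
  rw [le_div_iff₀ h0] at h6
  nlinarith

end Pool.PC
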