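import Pool.Agent.H54.PC.Exa
import Pool.Agent.H69.PC.Cls

/-!
# Plan C: the label `line` and the precision of the boxes

The line to precision `J` is a label without volume; it costs at most the information of the exact
point and the entropy of the direction, given the exact point. With a box of precision `q` of small
price this is a contradiction to the failure of the label inequality if `q` is near `J`.
-/

set_option autoImplicit false

namespace Pool.PC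

open Finset Real
open Pool.Agent.H49.Ent Pool.Agent.H32.Dense Pool.STK Pool.KA Pool.KSAT Pool.K2S Pool.PB Pool.LK

variable {m J : ℕ}

/-- The position at time zero, given the exact point and the direction. -/
theorem ch_u (F : Fam m J) :
    CH F.p (fun ω => fl J (F.u ω)) (fun ω => (F.D J ω, (F.X J ω, F.W ω))) ≤ m * Real.log 5 := by
  have hp := F.isLaw.nonneg
  have h := CH_le_vec hp F.isLaw.sum_one (fun ω => fl J (F.u ω))
    (fun ω => (F.D J ω, (F.X J ω, F.W ω))) (fun _ => 2) ?_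
  · rw [Ex_const F.isLaw.sum_one] at h
    have e : (2 * 2 + 1 : ℝ) = 5 := by norm_num
    rwa [e] at h
  · intro ω ω' _ _ hW i
    have hD : F.D J ω = F.D J ω' := (Prod.ext_iff.1 hW).1
    have hX : F.X J ω = F.X J ω' := (Prod.ext_iff.1 (Prod.ext_iff.1 hW).2).1
    have hT : F.T ω = F.T ω' := (Prod.ext_iff.1 (Prod.ext_iff.1 (Prod.ext_iff.1 hW).2).2).1
    have hXi : ⌊(2 : ℝ) ^ J * F.x ω i⌋ = ⌊(2 : ℝ) ^ J * F.x ω' i⌋ := congrFun hX i
    have hDi : ⌊(2 : ℝ) ^ J * F.d ω i⌋ = ⌊(2 : ℝ) ^ J * F.d ω' i⌋ := congrFun hD i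
    have h1 := Int.abs_sub_lt_one_of_floor_eq_floor hXi
    have h2 := Int.abs_sub_lt_one_of_floor_eq_floor hDi
    have ht : F.t ω = F.t ω' := by unfold Fam.t; rw [hT]
    have ht0 : 0 ≤ F.t ω := by unfold Fam.t; positivity
    have ht1 : F.t ω ≤ 1 := by
      unfold Fam.t
      rw [div_le_one (by positivity)]
      exact_mod_cast (F.tim ω).le
    have h3 : |F.t ω * ((2 : ℝ) ^ J * F.d ω i - 2 ^ J * F.d ω' i)| < 1 := by
      rw [abs_mul, abs_of_nonneg ht0]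
      have := abs_nonneg ((2 : ℝ) ^ J * F.d ω i - 2 ^ J * F.d ω' i)
      nlinarith
    have h4 : |(2 : ℝ) ^ J * F.u ω i - 2 ^ J * F.u ω' i| < 2 := by
      have e : (2 : ℝ) ^ J * F.u ω i - 2 ^ J * F.u ω' i =
          ((2 : ℝ) ^ J * F.x ω i - 2 ^ J * F.x ω' i) -
            F.t ω * ((2 : ℝ) ^ J * F.d ω i - 2 ^ J * F.d ω' i) := by
        unfold Fam.x
        rw [← ht]
        ring
      rw [e]
      refine (abs_sub _ _).trans_lt ?_
      linarith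
    change |((⌊(2 : ℝ) ^ J * F.u ω i⌋ - ⌊(2 : ℝ) ^ J * F.u ω' i⌋ : ℤ) : ℝ)| ≤ 2
    have b1 := Int.floor_le ((2 : ℝ) ^ J * F.u ω i)
    have b2 := Int.lt_floor_add_one ((2 : ℝ) ^ J * F.u ω i)
    have b3 := Int.floor_le ((2 : ℝ) ^ J * F.u ω' i)
    have b4 := Int.lt_floor_add_one ((2 : ℝ) ^ J * F.u ω' i)
    rw [abs_lt] at h4
    have c1 : ((⌊(2 : ℝ) ^ J * F.u ω i⌋ - ⌊(2 : ℝ) ^ J * F.u ω' i⌋ : ℤ) : ℝ) < 3 := by
      push_cast
      linarith [h4.1, h4.2]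
    have c2 : (-3 : ℝ) < ((⌊(2 : ℝ) ^ J * F.u ω i⌋ - ⌊(2 : ℝ) ^ J * F.u ω' i⌋ : ℤ) : ℝ) := by
      push_cast
      linarith [h4.1, h4.2]
    have c3 : ⌊(2 : ℝ) ^ J * F.u ω i⌋ - ⌊(2 : ℝ) ^ J * F.u ω' i⌋ < 3 := by exact_mod_cast c1
    have c4 : (-3 : ℤ) < ⌊(2 : ℝ) ^ J * F.u ω i⌋ - ⌊(2 : ℝ) ^ J * F.u ω' i⌋ := by
      exact_mod_cast c2
    have c5 : |⌊(2 : ℝ) ^ J * F.u ω i⌋ - ⌊(2 : ℝ) ^ J * F.u ω' i⌋| ≤ 2 := by
      rw [abs_le]
      constructor <;> omega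
    exact_mod_cast c5

/-- **The label `line`.** -/
theorem line_cost (F : Fam m J) {b : ℝ} (hb : 1 ≤ b) : ∃ B : Lbl F b,
    B.cost ≤ F.Vf + CH F.p (F.D J) (fun ω => (F.X J ω, F.W ω)) + m * Real.log 5 := by
  have hp := F.isLaw.nonneg
  have hid : ∀ i j : Fin m, |if i = j then (1 : ℝ) else 0| ≤ b := by
    intro i j
    split_ifs
    · rw [abs_one]
      exact hb
    · rw [abs_zero]
      linarith
  refine ⟨⟨fun _ _ => J, fun _ i j => if i = j then 1 else 0, fun _ _ => le_rfl,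
    fun _ i j => hid i j, fun _ => ⟨fun i j => if i = j then 1 else 0, hid, fun i l => by simp⟩⟩,
    ?_⟩
  have hmco : ∀ x : Fin m → ℝ, mco (fun i j : Fin m => if i = j then (1 : ℝ) else 0) x = x := by
    intro x
    funext i
    unfold mco
    simp
  have h1 : Lbl.cost (F := F) (b := b) ⟨fun _ _ => J, fun _ i j => if i = j then 1 else 0,
      fun _ _ => le_rfl, fun _ i j => hid i j, fun _ => ⟨fun i j => if i = j then 1 else 0, hid,
      fun i l => by simp⟩⟩ ≤ CH F.p (F.L J) F.Z := by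
    unfold Lbl.cost
    have e1 : (∑ ω, F.p ω * ∑ _i : Fin m, ((J : ℝ) - (J : ℕ))) * Real.log 2 = 0 := by
      simp
    rw [e1, add_zero]
    refine CH_mono_left hp fun ω ω' _ _ h => ?_
    have h2 : (F.L J ω, F.Z ω) = (F.L J ω', F.Z ω') := h
    have h3 : F.L J ω = F.L J ω' := (Prod.ext_iff.1 h2).1
    have h4 : fl J (F.u ω) = fl J (F.u ω') := (Prod.ext_iff.1 h3).1
    have h5 : fl J (F.d ω) = fl J (F.d ω') := (Prod.ext_iff.1 h3).2
    unfold Lbl.lab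
    refine Prod.ext rfl (Prod.ext ?_ ?_)
    · show flk _ (mco _ (F.u ω)) = flk _ (mco _ (F.u ω'))
      rw [hmco, hmco]
      exact h4
    · show flk _ (mco _ (F.d ω)) = flk _ (mco _ (F.d ω'))
      rw [hmco, hmco]
      exact h5
  refine h1.trans ?_
  have h2 := CH_chain hp (F.L J) (fun ω => (F.X J ω, F.T ω)) F.Z
  have h3 := CH_chain hp (fun ω => (F.X J ω, F.T ω)) (F.L J) F.Z
  have h4 : CH F.p (fun ω => ((F.X J ω, F.T ω), F.L J ω)) F.Z =
      CH F.p (fun ω => (F.L J ω, (F.X J ω, F.T ω))) F.Z := by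
    refine le_antisymm ?_ ?_ <;> refine CH_mono_left hp fun ω ω' _ _ h => ?_ <;>
    · have e := Prod.ext_iff.1 h
      have e1 := Prod.ext_iff.1 e.1
      exact Prod.ext e1.2 e1.1
  have h5 : CH F.p F.T (fun ω => (F.l ω, F.Z ω)) ≤
      CH F.p (fun ω => (F.X J ω, F.T ω)) (fun ω => (F.L J ω, F.Z ω)) := by
    refine le_trans (CH_mono_cond hp fun ω ω' _ _ h => ?_) (CH_mono_left hp fun ω ω' _ _ h => ?_)
    · have e := Prod.ext_iff.1 h
      have e1 : F.u ω = F.u ω' := (Prod.ext_iff.1 e.1).1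
      have e2 : F.d ω = F.d ω' := (Prod.ext_iff.1 e.1).2
      refine Prod.ext ?_ e.2
      show (fl J (F.u ω), fl J (F.d ω)) = (fl J (F.u ω'), fl J (F.d ω'))
      rw [e1, e2]
    · exact (Prod.ext_iff.1 (Prod.ext_iff.1 h).1).2
  have h6 : CH F.p (F.L J) (fun ω => ((F.X J ω, F.T ω), F.Z ω)) ≤
      CH F.p (F.D J) (fun ω => (F.X J ω, F.W ω)) + m * Real.log 5 := by
    have h7 : CH F.p (F.L J) (fun ω => ((F.X J ω, F.T ω), F.Z ω)) ≤
        CH F.p (F.L J) (fun ω => (F.X J ω, F.W ω)) := by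
      refine CH_mono_cond hp fun ω ω' _ _ h => ?_
      have e := Prod.ext_iff.1 h
      have e1 := Prod.ext_iff.1 e.1
      exact Prod.ext e1.1 (Prod.ext e1.2 e.2)
    have h8 : CH F.p (F.L J) (fun ω => (F.X J ω, F.W ω)) =
        CH F.p (fun ω => (fl J (F.u ω), F.D J ω)) (fun ω => (F.X J ω, F.W ω)) := rfl
    have h9 := CH_chain hp (fun ω => fl J (F.u ω)) (F.D J) (fun ω => (F.X J ω, F.W ω))
    have h10 := ch_u F
    linarith
  unfold Fam.Vf
  linarith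

/-- The direction to precision `J` in a box, given the label of the box. -/
theorem cnt_D {F : Fam 2 J} {A : F.Ω → Prop} {B : Bx F} (hB : B.Ok A) {α : Type} {P : F.Ω → α}
    (hP : DetA F A P B.lab) :
    Cnt F A P (F.D J) (2 ^ (J - B.q) * (2 ^ (J - B.n) * 5)) := by
  have ha : DetA F A P B.a := fun ω ω' h3 h4 e => congrArg Prod.fst (hP ω ω' h3 h4 e)
  have hq : DetA F A P fun ω => ⌊(2 : ℝ) ^ B.q * F.d ω B.i0⌋ := fun ω ω' h3 h4 e =>
    congrArg (fun x : ℝ × (ℤ × ℤ) => x.2.1) (hP ω ω' h3 h4 e)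
  have hn : DetA F A P fun ω => ⌊(2 : ℝ) ^ B.n * B.pr ω (F.d ω)⌋ := fun ω ω' h3 h4 e =>
    congrArg (fun x : ℝ × (ℤ × ℤ) => x.2.2) (hP ω ω' h3 h4 e)
  have k1 := Cnt.digits (hB.le.trans hB.leJ) hq
  have k2 := Cnt.digits (f := fun ω => B.pr ω (F.d ω)) hB.leJ hn
  have k3 : Cnt F A (fun ω => (P ω, ⌊(2 : ℝ) ^ J * F.d ω B.i0⌋))
      (fun ω => ⌊(2 : ℝ) ^ J * B.pr ω (F.d ω)⌋) (2 ^ (J - B.n)) :=
    k2.cond fun _ _ _ _ e => congrArg Prod.fst e
  have k4 : Cnt F A (fun ω => ((P ω, ⌊(2 : ℝ) ^ J * F.d ω B.i0⌋),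
      ⌊(2 : ℝ) ^ J * B.pr ω (F.d ω)⌋)) (fun ω => ⌊(2 : ℝ) ^ J * F.d ω (oth B.i0)⌋)
      (2 * (2 : ℕ) + 1) := by
    refine Cnt.int fun ω ω' h3 h4 e => ?_
    have e1 : P ω = P ω' := congrArg (fun x => x.1.1) e
    have e2 : ⌊(2 : ℝ) ^ J * F.d ω B.i0⌋ = ⌊(2 : ℝ) ^ J * F.d ω' B.i0⌋ :=
      congrArg (fun x => x.1.2) e
    have e3 : ⌊(2 : ℝ) ^ J * B.pr ω (F.d ω)⌋ = ⌊(2 : ℝ) ^ J * B.pr ω' (F.d ω')⌋ :=
      congrArg Prod.snd e
    have e4 := ha ω ω' h3 h4 e1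
    have h1 := Int.abs_sub_lt_one_of_floor_eq_floor e2
    have h2 := Int.abs_sub_lt_one_of_floor_eq_floor e3
    have h5 := hB.sl ω h3
    have h6 : |B.a ω * ((2 : ℝ) ^ J * F.d ω B.i0 - 2 ^ J * F.d ω' B.i0)| < 1 := by
      rw [abs_mul]
      have := abs_nonneg ((2 : ℝ) ^ J * F.d ω B.i0 - 2 ^ J * F.d ω' B.i0)
      have := abs_nonneg (B.a ω)
      nlinarith
    have h7 : (2 : ℝ) ^ J * F.d ω (oth B.i0) - 2 ^ J * F.d ω' (oth B.i0) =
        ((2 : ℝ) ^ J * B.pr ω (F.d ω) - 2 ^ J * B.pr ω' (F.d ω')) +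
          B.a ω * ((2 : ℝ) ^ J * F.d ω B.i0 - 2 ^ J * F.d ω' B.i0) := by
      unfold Bx.pr
      rw [← e4]
      ring
    have h8 : |(2 : ℝ) ^ J * F.d ω (oth B.i0) - 2 ^ J * F.d ω' (oth B.i0)| < 2 := by
      rw [h7]
      refine (abs_add_le _ _).trans_lt ?_
      linarith
    rw [abs_lt] at h8
    have b1 := Int.floor_le ((2 : ℝ) ^ J * F.d ω (oth B.i0))
    have b4 := Int.lt_floor_add_one ((2 : ℝ) ^ J * F.d ω' (oth B.i0))
    have c1 : ((⌊(2 : ℝ) ^ J * F.d ω (oth B.i0)⌋ - ⌊(2 : ℝ) ^ J * F.d ω' (oth B.i0)⌋ : ℤ) : ℝ) <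
        3 := by
      push_cast
      linarith [h8.1, h8.2]
    have c3 : ⌊(2 : ℝ) ^ J * F.d ω (oth B.i0)⌋ - ⌊(2 : ℝ) ^ J * F.d ω' (oth B.i0)⌋ < 3 := by
      exact_mod_cast c1
    omega
  have k5 := (k1.pair k3).pair (P := P) (o' := fun ω => ⌊(2 : ℝ) ^ J * F.d ω (oth B.i0)⌋)
    (N' := 5) ?_
  · have k6 : Cnt F A P (F.D J) (2 ^ (J - B.q) * 2 ^ (J - B.n) * 5) := by
      refine k5.det fun ω ω' _ _ e => ?_
      have e1 : ⌊(2 : ℝ) ^ J * F.d ω B.i0⌋ = ⌊(2 : ℝ) ^ J * F.d ω' B.i0⌋ :=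
        congrArg (fun x => x.2.1.1) e
      have e2 : ⌊(2 : ℝ) ^ J * F.d ω (oth B.i0)⌋ = ⌊(2 : ℝ) ^ J * F.d ω' (oth B.i0)⌋ :=
        congrArg (fun x => x.2.2) e
      funext i
      show ⌊(2 : ℝ) ^ J * F.d ω i⌋ = ⌊(2 : ℝ) ^ J * F.d ω' i⌋
      have hi : i = B.i0 ∨ i = oth B.i0 := by
        generalize B.i0 = i0
        fin_cases i <;> fin_cases i0 <;> simp [oth]
      rcases hi with h | h
      · rw [h]
        exact e1
      · rw [h]
        exact e2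
    refine k6.mono (le_of_eq ?_)
    ring
  · refine (k4.mono (le_of_eq (by norm_num))).cond fun ω ω' _ _ e => ?_
    have e1 : P ω = P ω' := congrArg Prod.fst e
    have e2 : (⌊(2 : ℝ) ^ J * F.d ω B.i0⌋, ⌊(2 : ℝ) ^ J * B.pr ω (F.d ω)⌋) =
      (⌊(2 : ℝ) ^ J * F.d ω' B.i0⌋, ⌊(2 : ℝ) ^ J * B.pr ω' (F.d ω')⌋) := congrArg Prod.snd e
    have e3 := Prod.ext_iff.1 e2
    exact Prod.ext (Prod.ext e1 e3.1) e3.2

/-- **(LINE)** If the label inequality fails by `R J` on the event `A`, then the boxes of a chain on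
`A` are not near the full precision. -/
theorem line_bar {b c₀ R : ℝ} (hb : 1 ≤ b) {F : Fam 2 J} {A : F.Ω → Prop} (hU : Umv F b R c₀)
    (hA : Real.exp (-(c₀ * J)) ≤ Pe F.p A) {M g k : ℕ} (hk : k < M) {B : ℕ → Bx F} {N : ℕ → ℝ}
    (hC : Chn F A M g B N) :
    R * J ≤ N k + 2 * ((J : ℝ) - (B k).q) * Real.log 2 + 3 * Real.log 5 := by
  have hl2 : 0 < Real.log 2 := Real.log_pos (by norm_num)
  have hA0 : 0 < Pe F.p A := (Real.exp_pos _).trans_le hA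
  have h : IsLaw (Pool.Agent.H49.Ent.cond F.p A True) := isLaw_cond F.isLaw hA0
  obtain ⟨L, hL⟩ := line_cost (F.res A True h) hb
  have h1 := hU A h hA L
  have k1 : Cnt F A (ptk B k) (F.D J) (2 ^ (J - (B k).q) * (2 ^ (J - (B k).n) * 5)) :=
    cnt_D (hC.ok k hk) (ptk_det_lab B le_rfl)
  have k2 : Cnt F A (pt F) (F.D J)
      (Real.exp (N k) * (2 ^ (J - (B k).q) * (2 ^ (J - (B k).n) * 5))) := (hC.cnt k hk).comp k1
  have k3 := k2.entropy (p := Pool.Agent.H49.Ent.cond F.p A True) h fun ω hω => by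
    have := (cond_pos_iff F.isLaw.nonneg A True ω).1 hω
    exact ⟨this.1, of_eq_true this.2⟩
  have e1 : Real.log (Real.exp (N k) * (2 ^ (J - (B k).q) * (2 ^ (J - (B k).n) * 5))) =
      N k + ((J : ℝ) - (B k).q) * Real.log 2 + ((J : ℝ) - (B k).n) * Real.log 2 +
        Real.log 5 := by
    rw [Real.log_mul (Real.exp_pos _).ne' (by positivity), Real.log_exp,
      Real.log_mul (by positivity) (by positivity), Real.log_mul (by positivity) (by norm_num),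
      Real.log_pow, Real.log_pow, Nat.cast_sub ((hC.ok k hk).le.trans (hC.ok k hk).leJ),
      Nat.cast_sub (hC.ok k hk).leJ]
    ring
  rw [e1] at k3
  have k4 : CH (F.res A True h).p ((F.res A True h).D J) (fun ω => ((F.res A True h).X J ω,
      (F.res A True h).W ω)) ≤ N k + ((J : ℝ) - (B k).q) * Real.log 2 +
        ((J : ℝ) - (B k).n) * Real.log 2 + Real.log 5 := k3
  have k5 : ((B k).q : ℝ) ≤ (B k).n := Nat.cast_le.2 (hC.ok k hk).le
  have k6 : ((J : ℝ) - (B k).n) * Real.log 2 ≤ ((J : ℝ) - (B k).q) * Real.log 2 :=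
    mul_le_mul_of_nonneg_right (by linarith) hl2.le
  have e2 : ((2 : ℕ) : ℝ) = 2 := by norm_num
  rw [e2] at hL
  linarith

end Pool.PC
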