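import Pool.Agent.H85.PC.Sel
import Pool.Agent.H53.LK.Rexl

/-!
# Rounded lines: the information, entropies, labels
-/

set_option autoImplicit false

namespace Pool.PC

open Finset Real
open Pool.Agent.H49.Ent Pool.Agent.H32.Dense Pool.STK Pool.KA Pool.KSAT Pool.K2S Pool.LK

variable {m J : ℕ}

theorem rnd_l_det (F : Fam m J) : Det F.p (fun ω => (F.l ω, F.Z ω))
    (fun ω => (F.rnd.l ω, F.rnd.Z ω)) := by
  intro ω ω' _ _ h
  have e1 := Prod.ext_iff.1 h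
  have e3 : F.u ω = F.u ω' := (Prod.ext_iff.1 e1.1).1
  have e4 : F.d ω = F.d ω' := (Prod.ext_iff.1 e1.1).2
  have e5 : F.Z ω = F.Z ω' := e1.2
  refine Prod.ext (Prod.ext ?_ ?_) e5
  · funext i
    show (⌊(2 : ℝ) ^ J * F.u ω i⌋ : ℝ) / 2 ^ J = (⌊(2 : ℝ) ^ J * F.u ω' i⌋ : ℝ) / 2 ^ J
    rw [e3]
  · funext i
    show (⌊(2 : ℝ) ^ J * F.d ω i⌋ : ℝ) / 2 ^ J = (⌊(2 : ℝ) ^ J * F.d ω' i⌋ : ℝ) / 2 ^ J
    rw [e4]

/-- Entropies of rounded lines. -/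
theorem rnd_x (m : ℕ) : ∃ C : ℝ, 0 ≤ C ∧ ∀ (J : ℕ) (F : Fam m J),
    CH F.p (F.rnd.X J) F.W ≤ CH F.p (F.X J) F.W + C ∧
    CH F.p F.rnd.l F.W ≤ CH F.p (F.X J) F.W + CH F.p (F.D J) F.Z + C := by
  obtain ⟨C₂, hC₂, h₂⟩ := mrn_thm m
  refine ⟨C₂, hC₂, fun J F => ?_⟩
  have he : F.Tm (J * Real.log 2) := by
    unfold Fam.Tm
    rw [sub_self]
    exact CH_nonneg F.isLaw.nonneg _ _
  obtain ⟨-, g2, g3⟩ := h₂ J F 1 _ (by norm_num) he
  have e1 : F.rnd.Ga 1 - F.Ga 1 = -(CH F.p (F.rnd.X J) F.W - CH F.p (F.X J) F.W) := by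
    unfold Fam.Ga
    rw [MRN.D_rnd]
    change CH F.p (F.D J) F.Z - 1 * CH F.p (F.rnd.X J) F.W -
      (CH F.p (F.D J) F.Z - 1 * CH F.p (F.X J) F.W) = _
    ring
  rw [e1, abs_neg, one_mul] at g2
  have := abs_le.1 g2
  exact ⟨by linarith [this.1, this.2], g3⟩

/-- The information of rounded lines. -/
theorem vi_rnd (m : ℕ) : ∃ C : ℝ, 0 ≤ C ∧ ∀ (J : ℕ) (F : Fam m J), vi F.rnd ≤ vi F + C := by
  obtain ⟨C, hC, h⟩ := rnd_x m
  refine ⟨C, hC, fun J F => ?_⟩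
  have hp := F.isLaw.nonneg
  have h1 := CH_chain hp (F.X J) F.T F.Z
  have h2 := CH_chain hp (F.rnd.X J) F.T F.Z
  have h3 : CH F.p F.T (fun ω => (F.l ω, F.Z ω)) ≤
      CH F.p F.T (fun ω => (F.rnd.l ω, F.rnd.Z ω)) := CH_mono_cond hp (rnd_l_det F)
  have h4 := (h J F).1
  have e1 : CH F.p (F.X J) (fun ω => (F.T ω, F.Z ω)) = CH F.p (F.X J) F.W := rfl
  have e2 : CH F.p (F.rnd.X J) (fun ω => (F.T ω, F.Z ω)) = CH F.p (F.rnd.X J) F.W := rfl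
  have e3 : vi F.rnd = CH F.p (fun ω => (F.rnd.X J ω, F.T ω)) F.Z -
    CH F.p F.T (fun ω => (F.rnd.l ω, F.rnd.Z ω)) := rfl
  have e4 : vi F = CH F.p (fun ω => (F.X J ω, F.T ω)) F.Z -
    CH F.p F.T (fun ω => (F.l ω, F.Z ω)) := rfl
  rw [e3, e4, h1, h2, e1, e2]
  linarith

/-- The entropy of the positions in one unit cube. -/
theorem ch_x_cube (F : Fam m J) (hJ : 1 ≤ J) (u₀ : Fin m → ℤ)
    (h : ∀ ω, F.p ω ≠ 0 → fl 0 (F.u ω) = u₀) :
    CH F.p (F.X J) F.W ≤ m * (5 * J * Real.log 2) := by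
  have hp := F.isLaw.nonneg
  have hl2 : 0 < Real.log 2 := Real.log_pos (by norm_num)
  have h1 := CH_le_vec hp F.isLaw.sum_one (F.X J) F.W (fun _ => 4 * 2 ^ J) ?_
  · rw [Ex_const F.isLaw.sum_one] at h1
    refine h1.trans (mul_le_mul_of_nonneg_left ?_ (Nat.cast_nonneg m))
    have hJ' : (1 : ℝ) ≤ J := by exact_mod_cast hJ
    have h2 : (2 * (4 * 2 ^ J) + 1 : ℝ) ≤ 2 ^ (J + 4) := by
      rw [pow_add]
      have : (1 : ℝ) ≤ 2 ^ J := one_le_pow₀ (by norm_num)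
      linarith
    have h3 := Real.log_le_log (by positivity) h2
    rw [Real.log_pow] at h3
    refine h3.trans ?_
    push_cast
    nlinarith
  · intro ω ω' hω hω' hW i
    have hT : F.T ω = F.T ω' := (Prod.ext_iff.1 hW).1
    have ht : F.t ω = F.t ω' := by unfold Fam.t; rw [hT]
    have ht0 : 0 ≤ F.t ω := by unfold Fam.t; positivity
    have ht1 : F.t ω ≤ 1 := by
      unfold Fam.t
      rw [div_le_one (by positivity)]
      exact_mod_cast (F.tim ω).le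
    have hu : |F.u ω i - F.u ω' i| < 1 := by
      have a1 := congrFun (h ω hω.ne') i
      have a2 := congrFun (h ω' hω'.ne') i
      have a3 : ⌊(2 : ℝ) ^ 0 * F.u ω i⌋ = ⌊(2 : ℝ) ^ 0 * F.u ω' i⌋ := a1.trans a2.symm
      rw [pow_zero, one_mul, one_mul] at a3
      exact Int.abs_sub_lt_one_of_floor_eq_floor a3
    have hd : |F.t ω * F.d ω i - F.t ω * F.d ω' i| ≤ 2 := by
      rw [← mul_sub, abs_mul, abs_of_nonneg ht0]
      have h3 : |F.d ω i - F.d ω' i| ≤ 2 := by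
        have a1 := F.dir ω i
        have a2 := F.dir ω' i
        rw [abs_le] at a1 a2 ⊢
        constructor <;> linarith
      have := abs_nonneg (F.d ω i - F.d ω' i)
      nlinarith
    have hx : |F.x ω i - F.x ω' i| ≤ 3 := by
      unfold Fam.x
      rw [← ht]
      have e1 : F.u ω i + F.t ω * F.d ω i - (F.u ω' i + F.t ω * F.d ω' i) =
        (F.u ω i - F.u ω' i) + (F.t ω * F.d ω i - F.t ω * F.d ω' i) := by ring
      rw [e1]
      refine (abs_add_le _ _).trans ?_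
      linarith
    change |((⌊(2 : ℝ) ^ J * F.x ω i⌋ - ⌊(2 : ℝ) ^ J * F.x ω' i⌋ : ℤ) : ℝ)| ≤ 4 * 2 ^ J
    have hJ2 : (1 : ℝ) ≤ 2 ^ J := one_le_pow₀ (by norm_num)
    have h4 : |(2 : ℝ) ^ J * F.x ω i - 2 ^ J * F.x ω' i| ≤ 3 * 2 ^ J := by
      rw [← mul_sub, abs_mul, abs_of_pos (by positivity : (0 : ℝ) < 2 ^ J)]
      nlinarith
    have b1 := Int.floor_le ((2 : ℝ) ^ J * F.x ω i)
    have b2 := Int.lt_floor_add_one ((2 : ℝ) ^ J * F.x ω i)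
    have b3 := Int.floor_le ((2 : ℝ) ^ J * F.x ω' i)
    have b4 := Int.lt_floor_add_one ((2 : ℝ) ^ J * F.x ω' i)
    rw [abs_le] at h4
    push_cast
    rw [abs_le]
    constructor <;> linarith [h4.1, h4.2]

/-- The entropies of the basic list. -/
theorem reg_ent (m : ℕ) : ∃ B : ℝ, 0 < B ∧ ∀ J : ℕ, 1 ≤ J → ∀ (F : Fam m J) (u₀ : Fin m → ℤ),
    F.Tr → (∀ ω, F.p ω ≠ 0 → fl 0 (F.u ω) = u₀) →
    ∀ i, H F.rnd.p (REX.lst F.rnd i) ≤ B * J := by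
  obtain ⟨C, hC, hr⟩ := rnd_x m
  have hl2 : 0 < Real.log 2 := Real.log_pos (by norm_num)
  set L : ℝ := m * Real.log 2 with hL
  have hL0 : 0 ≤ L := mul_nonneg (Nat.cast_nonneg m) hl2.le
  refine ⟨9 * L + C + Real.log 2 + 1, by positivity, fun J hJ F u₀ hTr hu i => ?_⟩
  have hJr : (1 : ℝ) ≤ J := by exact_mod_cast hJ
  have hJp : (0 : ℝ) < J := by linarith
  have hTr2 : F.rnd.Tr := hTr
  obtain ⟨r1, r2⟩ := hr J F
  have hx : CH F.p (F.X J) F.W ≤ 5 * L * J := by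
    refine (ch_x_cube F hJ u₀ hu).trans (le_of_eq ?_)
    rw [hL]
    ring
  have hdir : ∀ G : Fam m J, CH G.p (G.D J) G.Z ≤ 4 * L * J := by
    intro G
    have h1 := aex_dir G
    have h2 : (m : ℝ) * (((J : ℝ) + 3) * Real.log 2) = L * (J + 3) := by rw [hL]; ring
    rw [h2] at h1
    nlinarith
  have hX2 : CH F.rnd.p (F.rnd.X J) F.rnd.W ≤ 5 * L * J + C := by
    have h1 : CH F.rnd.p (F.rnd.X J) F.rnd.W ≤ CH F.p (F.X J) F.W + C := r1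
    linarith
  have hl : CH F.rnd.p F.rnd.l F.rnd.W ≤ 9 * L * J + C := by
    have h1 : CH F.rnd.p F.rnd.l F.rnd.W ≤
      CH F.p (F.X J) F.W + CH F.p (F.D J) F.Z + C := r2
    linarith [hdir F]
  have hLJ : 0 ≤ L * J := mul_nonneg hL0 hJp.le
  have hlJ : 0 ≤ Real.log 2 * J := mul_nonneg hl2.le hJp.le
  have hCJ : C ≤ C * J := by nlinarith
  have hBJ : (9 * L + C + Real.log 2 + 1) * J = 9 * (L * J) + C * J + Real.log 2 * J + J := by
    ring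
  refine (REX.H_le hTr2 _).trans ?_
  rw [hBJ]
  match i with
  | 0 =>
    have h1 : CH F.rnd.p (F.rnd.D J) F.rnd.Z ≤ 4 * L * J := hdir F.rnd
    change CH F.rnd.p (F.rnd.D J) F.rnd.Z ≤ _
    nlinarith
  | 1 =>
    have h1 := REX.pair_le F.rnd (F.rnd.X J)
    change CH F.rnd.p (fun ω => (F.rnd.X J ω, F.rnd.T ω)) F.rnd.Z ≤ _
    nlinarith
  | 2 =>
    have h1 := REX.T_le F.rnd
    change CH F.rnd.p F.rnd.T F.rnd.Z ≤ _
    nlinarith
  | 3 =>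
    have h1 := REX.pair_le F.rnd F.rnd.l
    change CH F.rnd.p (fun ω => (F.rnd.l ω, F.rnd.T ω)) F.rnd.Z ≤ _
    nlinarith
  | 4 =>
    have h1 := REX.pair_le F.rnd F.rnd.l
    have h2 : CH F.rnd.p F.rnd.l F.rnd.Z ≤
        CH F.rnd.p (fun ω => (F.rnd.l ω, F.rnd.T ω)) F.rnd.Z :=
      CH_mono_left F.rnd.isLaw.nonneg fun ω ω' _ _ e =>
        (Prod.ext_iff.1 (Prod.ext_iff.1 e).1).1
    change CH F.rnd.p F.rnd.l F.rnd.Z ≤ _
    nlinarith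

/-- Restriction twice. -/
theorem res2_cost {F : Fam m J} {b v : ℝ} (A B : F.Ω → Prop)
    (h : IsLaw (Pool.Agent.H49.Ent.cond F.p A True))
    (h' : IsLaw (Pool.Agent.H49.Ent.cond (F.res A True h).p B True))
    (h'' : IsLaw (Pool.Agent.H49.Ent.cond F.p (fun ω => A ω ∧ B ω) True))
    (hG : ∀ L : Lbl (F.res (fun ω => A ω ∧ B ω) True h'') b,
      vi (F.res (fun ω => A ω ∧ B ω) True h'') + v ≤ L.cost) :
    ∀ L : Lbl ((F.res A True h).res B True h') b,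
      vi ((F.res A True h).res B True h') + v ≤ L.cost := by
  intro L
  have h1 := hG ⟨L.k, L.M, L.le, L.bd, L.inv⟩
  have e := REXL.cond_and F.isLaw.nonneg A B
  have e1 : vi ((F.res A True h).res B True h') =
      viq F (Pool.Agent.H49.Ent.cond (Pool.Agent.H49.Ent.cond F.p A True) B True) := rfl
  have e2 : vi (F.res (fun ω => A ω ∧ B ω) True h'') =
      viq F (Pool.Agent.H49.Ent.cond F.p (fun ω => A ω ∧ B ω) True) := rfl
  rw [e2] at h1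
  rw [e1, e]
  have key : ∀ (q q' : F.Ω → ℝ), q = q' → ∀ (lb : F.Ω → ((Fin m → ℕ) × (Fin m → Fin m → ℝ)) ×
      ((Fin m → ℤ) × (Fin m → ℤ))) (k : F.Ω → Fin m → ℕ),
      CH q' lb F.Z + (∑ ω, q' ω * ∑ i, ((J : ℝ) - k ω i)) * Real.log 2 =
      CH q lb F.Z + (∑ ω, q ω * ∑ i, ((J : ℝ) - k ω i)) * Real.log 2 := by
    intro q q' h _ _
    rw [h]
  have h2 := key _ _ e (fun ω => ((L.k ω, L.M ω),
    (flk (L.k ω) (mco (L.M ω) (F.u ω)), flk (L.k ω) (mco (L.M ω) (F.d ω))))) L.k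
  exact h1.trans (le_of_eq h2)

/-- Labels of rounded lines. -/
theorem lab_rnd (m : ℕ) (b : ℝ) : ∃ C : ℝ, 0 ≤ C ∧ ∀ (J : ℕ) (F : Fam m J) (v : ℝ),
    (∀ B : Lbl F b, vi F + v ≤ B.cost) → ∀ B : Lbl F.rnd b, vi F.rnd + (v - C) ≤ B.cost := by
  obtain ⟨C₁, hC₁, h₁⟩ := RND.cost m b
  obtain ⟨C₂, hC₂, h₂⟩ := vi_rnd m
  refine ⟨C₁ + C₂, by positivity, fun J F v hv B => ?_⟩
  have h3 := hv (RND.up B)
  have h4 := h₁ J F B
  have h5 := h₂ J F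
  linarith

end Pool.PC
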