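import Pool.Agent.H85.PC.Out
import Pool.Agent.H54.PC.Cnt
import Pool.Agent.H85.PC.Reg0
import Pool.Agent.H85.TG.DSU

/-!
# Plan C: from the pairs of the class to one family
-/

set_option autoImplicit false

namespace Pool.PC

open Finset Real
open Pool.Agent.H49.Ent Pool.Agent.H32.Dense Pool.STK Pool.KA Pool.KSAT Pool.K2S Pool.LK

variable {m J : ℕ}

/-- The box of the restricted family. -/
def Bx.tr {F : Fam 2 J} (B : Bx F) (U : F.Ω → Prop)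
    (h : IsLaw (Pool.Agent.H49.Ent.cond F.p U True)) : Bx (F.res U True h) where
  i0 := B.i0
  a := B.a
  q := B.q
  n := B.n

section

variable {F : Fam m J} {U A : F.Ω → Prop} {h : IsLaw (Pool.Agent.H49.Ent.cond F.p U True)}

theorem on_res {E : F.Ω → Prop} {ω : F.Ω} : On (F.res U True h) E ω ↔
    On F (fun ω => U ω ∧ E ω) ω := by
  have h1 := cond_pos_iff F.isLaw.nonneg U True ω
  constructor
  · rintro ⟨h2, h3⟩
    have h4 := h1.1 h2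
    exact ⟨h4.1, of_eq_true h4.2, h3⟩
  · rintro ⟨h2, h3, h4⟩
    exact ⟨h1.2 ⟨h2, eq_true h3⟩, h4⟩

theorem on_sub (hU : ∀ ω, U ω → A ω) {ω : F.Ω} (h1 : On (F.res U True h) (fun _ => True) ω) :
    On F A ω := by
  have h2 := on_res.1 h1
  exact ⟨h2.1, hU ω h2.2.1⟩

theorem cnt_res (hU : ∀ ω, U ω → A ω) {α β : Type} {P : F.Ω → α} {o : F.Ω → β} {N : ℝ}
    (hC : Cnt F A P o N) : Cnt (F.res U True h) (fun _ => True) P o N := by
  refine Cnt.intro (F := F.res U True h) fun ω₀ h0 => ?_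
  obtain ⟨I, h1, h2, -⟩ := hC.out (on_sub hU h0)
  exact ⟨I, fun ω h3 h4 => h1 ω (on_sub hU h3) h4, h2⟩

/-- The events of the restricted family. -/
theorem ev_res {ϖ : ℝ} (hϖ : 0 ≤ ϖ) (hU : ∀ ω, U ω → A ω) (hUh : Pe F.p A / 2 ≤ Pe F.p U)
    {E : F.Ω → Prop} (hE : Ev (F.res U True h) (fun _ => True) ϖ E) :
    Ev F A (ϖ / 2) (fun ω => U ω ∧ E ω) := by
  have hp := F.isLaw
  refine ⟨fun ω hω => hU ω hω.1, ?_⟩
  have h1 := hE.2
  have h2 : Pe (F.res U True h).p (fun _ => True) = 1 := Pe_univ (F.res U True h).isLaw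
  rw [h2, mul_one] at h1
  have h3 : ϖ ≤ Pe (Pool.Agent.H49.Ent.cond F.p U True) E := h1
  have h4 := REXL.Pe_and hp U E
  rw [← h4]
  have h5 : ϖ * (Pe F.p A / 2) ≤ Pe (Pool.Agent.H49.Ent.cond F.p U True) E * Pe F.p U :=
    mul_le_mul h3 hUh (by have := Pe_nonneg hp A; positivity) (hϖ.trans h3)
  linarith

theorem clz_res {E : F.Ω → Prop} {a : F.Ω → ℝ} {w : ℕ} {e : ℝ}
    (hC : Clz (F.res U True h) E a w e) : Clz F (fun ω => U ω ∧ E ω) a w e :=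
  fun ω ω' h1 h2 h3 => hC ω ω' (on_res.2 h1) (on_res.2 h2) h3

end

/-- **The levels of half of the event.** -/
theorem ClsLvl.res {M : ℕ} {δ g κ : ℝ} {F : Fam 2 J} {A : F.Ω → Prop} {S : Num M δ g κ}
    {W Q : Finset ℚ} {e ϖ : ℝ} {B : ℕ → Bx F} {N : ℕ → ℝ} (hϖ : 0 ≤ ϖ)
    (hL : ClsLvl F A S W Q e (ϖ / 2) B N) {U : F.Ω → Prop} (hU : ∀ ω, U ω → A ω)
    (hUh : Pe F.p A / 2 ≤ Pe F.p U) (h : IsLaw (Pool.Agent.H49.Ent.cond F.p U True)) :
    ClsLvl (F.res U True h) (fun _ => True) S W Q e ϖ (fun k => (B k).tr U h) N where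
  chn := by
    refine ⟨fun k hk => ⟨(hL.chn.ok k hk).le, (hL.chn.ok k hk).leJ, fun ω hω =>
      (hL.chn.ok k hk).sl ω (on_sub hU hω)⟩, fun k hk ω hω v hv =>
      hL.chn.ins k hk ω (on_sub hU hω) v hv, hL.chn.nn, fun k hk => ?_⟩
    exact cnt_res hU (hL.chn.cnt k hk)
  bq := hL.bq
  bn := hL.bn
  price := hL.price
  clo := fun k hk w hw h0 h1 ω ω' h2 h3 h4 =>
    hL.clo k hk w hw h0 h1 ω ω' (on_sub hU h2) (on_sub hU h3) h4
  th := fun k hk w hw h0 h1 h2 E hE hC =>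
    hL.th k hk w hw h0 h1 h2 _ (ev_res hϖ hU hUh hE) (clz_res hC)
  act := by
    intro k hk x hx h0 h1 E hE
    have h2 := hL.act k hk x hx h0 h1 _ (ev_res hϖ hU hUh hE)
    have e1 := REXL.cond_and F.isLaw.nonneg U E
    have e2 : CH (Pool.Agent.H49.Ent.cond (F.res U True h).p E True)
        (fun ω => ⌊(2 : ℝ) ^ ⌊(x : ℝ) * J⌋₊ * (F.res U True h).d ω ((B k).tr U h).i0⌋)
        (ptk (fun k => (B k).tr U h) k) =
      CH (Pool.Agent.H49.Ent.cond (Pool.Agent.H49.Ent.cond F.p U True) E True)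
        (fun ω => ⌊(2 : ℝ) ^ ⌊(x : ℝ) * J⌋₊ * F.d ω (B k).i0⌋) (ptk B k) := rfl
    rw [e2, e1]
    exact h2
  exa := by
    intro k hk h1 E hE hN
    refine hL.exa k hk h1 _ (ev_res hϖ hU hUh hE) ?_
    obtain ⟨lam, mu, nu, hd, hn⟩ := hN
    refine ⟨lam, mu, nu, fun ω ω' h2 h3 e => hd ω ω' (on_res.2 h2) (on_res.2 h3) e,
      fun ω hω => hn ω (on_res.2 hω)⟩

/-- **From the pairs of the class to one family.** -/
theorem out_of_pair (hP : CLSPair) : CLSOut := by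
  intro b R c₀ η K hb hR hc hη hne M δ g hδ hg hpr
  obtain ⟨S, hS⟩ := hP b R c₀ η K hb hR hc hη hne M δ g hδ hg hpr
  refine ⟨S, ?_⟩
  intro W Q e ϖ τ he hϖ hϖ1 hτ J₀
  have hl2 : 0 < Real.log 2 := Real.log_pos (by norm_num)
  obtain ⟨τ', hτ'⟩ : ∃ τ' : ℝ, τ' = min (τ / 4) (c₀ / 2) := ⟨_, rfl⟩
  have hτ'0 : 0 < τ' := by rw [hτ']; exact lt_min (by positivity) (by positivity)
  have hτ'1 : τ' ≤ τ / 4 := by rw [hτ']; exact min_le_left _ _
  have hτ'2 : τ' ≤ c₀ / 2 := by rw [hτ']; exact min_le_right _ _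
  obtain ⟨J₁, hJ₁⟩ := exists_nat_ge (2 * Real.log 2 / τ)
  obtain ⟨J₂, hJ₂⟩ := exists_nat_ge (2 * Real.log 2 / c₀)
  obtain ⟨J, hJ, F, A, B, N, hSt, hL⟩ := hS W Q e (ϖ / 2) τ' he (by positivity) (by linarith) hτ'0
    (J₀ + J₁ + J₂)
  have k1 : 2 * Real.log 2 ≤ τ * J := by
    have h := hJ₁.trans (by exact_mod_cast (by omega : J₁ ≤ J) : (J₁ : ℝ) ≤ J)
    rw [div_le_iff₀ hτ] at h
    linarith
  have k2 : 2 * Real.log 2 ≤ c₀ * J := by
    have h := hJ₂.trans (by exact_mod_cast (by omega : J₂ ≤ J) : (J₂ : ℝ) ≤ J)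
    rw [div_le_iff₀ hc] at h
    linarith
  have hJn : (0 : ℝ) ≤ J := Nat.cast_nonneg J
  have k3 : τ' * J ≤ τ / 4 * J := mul_le_mul_of_nonneg_right hτ'1 hJn
  have k4 : τ' * J ≤ c₀ / 2 * J := mul_le_mul_of_nonneg_right hτ'2 hJn
  obtain ⟨⟨hTr, hTGD, hUmv⟩, hPA⟩ := hSt
  have hA0 : 0 < Pe F.p A := (Real.exp_pos _).trans_le hPA
  obtain ⟨U, hU, hUh, h, hTU⟩ := tg_dsu 2 J F False K η 0 (η * J) (τ' * J) hTGD A hA0
  have hlogA : -(τ' * J) ≤ Real.log (Pe F.p A) := by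
    have := Real.log_le_log (Real.exp_pos _) hPA
    rwa [Real.log_exp] at this
  have hPU : Real.exp (-(c₀ * J)) ≤ Pe F.p U := by
    refine le_trans ?_ hUh
    rw [le_div_iff₀ (by norm_num : (0 : ℝ) < 2)]
    refine le_trans ?_ hPA
    have h2 : (2 : ℝ) = Real.exp (Real.log 2) := (Real.exp_log (by norm_num)).symm
    rw [h2, ← Real.exp_add]
    exact Real.exp_le_exp.2 (by linarith)
  refine ⟨J, by omega, F.res U True h, fun k => (B k).tr U h, N, ?_, ?_, fun L => ?_,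
    hL.res hϖ.le hU hUh h⟩
  · obtain ⟨z, hz⟩ := hTr
    refine ⟨z, fun ω hω => hz ω ?_⟩
    have h1 : 0 < Pool.Agent.H49.Ent.cond F.p U True ω :=
      lt_of_le_of_ne (h.nonneg ω) (Ne.symm hω)
    exact (cond_pos' F.isLaw.nonneg U h1).ne'
  · refine tgd_mono ?_ hTU
    have h1 : Real.log (2 / law F.p A True) = Real.log 2 - Real.log (Pe F.p A) :=
      Real.log_div (by norm_num) hA0.ne'
    rw [h1]
    linarith
  · exact hUmv U h hPU L

end Pool.PC
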