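import Pool.Agent.H85.PC.NumX
import Pool.Agent.H85.PC.OutRes
import Pool.Agent.H85.PC.CntLow
import Pool.Agent.H85.PC.Line
import Pool.Agent.H54.PC.Box
import Pool.Agent.H67.PC.NumT

/-!
# Plan C: the pairs of the class
-/

set_option autoImplicit false

namespace Pool.PC

open Finset Real
open Pool.Agent.H49.Ent Pool.Agent.H32.Dense Pool.STK Pool.KA Pool.KSAT Pool.K2S Pool.PB Pool.LK

theorem near_mono {J : ℕ} {F : Fam 2 J} {B : Bx F} {E : F.Ω → Prop} {α : Type} {P : F.Ω → α}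
    {h h' : ℕ} (hN : NearLine F B E P h) (hh : h' ≤ h) : NearLine F B E P h' := by
  obtain ⟨lam, mu, nu, h1, h2⟩ := hN
  refine ⟨lam, mu, nu, h1, fun ω hω => ?_⟩
  obtain ⟨a1, a2, a3, a4⟩ := h2 ω hω
  refine ⟨a1, a2, a3, a4.trans ?_⟩
  exact one_div_le_one_div_of_le (by positivity) (pow_le_pow_right₀ (by norm_num) hh)

/-- **The levels** from the boxes of one family. -/
theorem lvl_of_box {J M : ℕ} {δ γ κ : ℝ} {s : ℕ → ℝ} (hδ : 0 < δ) (hR : NumR M δ γ s)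
    (hκ : 0 < κ) (hq : ∀ k < M, cq M s k ≤ 1 - κ) {F : Fam 2 J} {A : F.Ω → Prop}
    (hA : 0 < Pe F.p A) {B : ℕ → Bx F} {N : ℕ → ℝ} {I : ℕ} {W Q : Finset ℚ} {h e ψ ϖ : ℝ}
    (he : 0 < e) (heh : 4 * e ≤ h) (hψ : 0 ≤ ψ) (hϖ : 0 < ϖ)
    (hI : ∀ k < M, ix M 0 k 0 ≤ I ∧ ix M 1 k 0 ≤ I ∧ (∀ w ∈ W, ix M 2 k w ≤ I) ∧
      ∀ x ∈ Q, ix M 3 k x ≤ I)
    (hJ1 : 2 ≤ e * J) (hJ2 : Real.exp (-(ψ * J)) ≤ ϖ * (h / (4 * (1 + h))))
    (hB : Box δ γ M s I e ψ F A B N) :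
    ClsLvl F A (numX hδ hR hκ hq) W Q h ϖ B N := by
  have hJ0 : (0 : ℝ) ≤ J := Nat.cast_nonneg J
  have hh : 0 < h := by linarith only [he, heh]
  have hl2 : 0 < Real.log 2 := Real.log_pos (by norm_num)
  have hl21 : Real.log 2 ≤ 1 := by
    have := Real.log_le_sub_one_of_pos (show (0 : ℝ) < 2 by norm_num)
    linarith only [this]
  have eJ : e * J ≤ h * J := mul_le_mul_of_nonneg_right (by linarith only [he, heh]) hJ0
  have eJ4 : 4 * (e * J) ≤ h * J := by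
    have := mul_le_mul_of_nonneg_right heh hJ0
    linarith only [this]
  have hq1 : h / (4 * (1 + h)) ≤ 1 := by
    rw [div_le_one (by positivity)]
    linarith only [he, heh]
  have hq0 : 0 < h / (4 * (1 + h)) := by positivity
  have hev : ∀ E, Ev F A ϖ E → Evt F A ψ E := by
    rintro E ⟨h1, h2⟩
    refine ⟨h1, le_trans ?_ h2⟩
    refine mul_le_mul_of_nonneg_right (hJ2.trans ?_) hA.le
    nlinarith only [hϖ, hq1]
  refine
    { chn := hB.chn
      bq := fun k hk => ?_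
      bn := fun k hk => ?_
      price := fun k hk => ?_
      clo := fun k hk w hw h0 h1 ω ω' h2 h3 h4 => ?_
      th := fun k hk w hw h0 h1 h2 E hE hC => ?_
      act := fun k hk x hx h0 h1 E hE => ?_
      exa := fun k hk h1 E hE hN => ?_ }
  · obtain ⟨h1, h2⟩ := hB.q_near hψ hk (hI k hk).1
    show |((B k).q : ℝ) - cq M s k * J| ≤ h * J
    rw [abs_le]
    constructor <;> nlinarith
  · obtain ⟨h1, h2⟩ := hB.n_near hψ hk (hI k hk).2.1
    show |((B k).n : ℝ) - cn M s k * J| ≤ h * J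
    rw [abs_le]
    constructor <;> nlinarith
  · refine (hB.pri k hk).trans ?_
    nlinarith only [hJ1, eJ4]
  · have h0' : (0 : ℚ) ≤ w := by exact_mod_cast h0
    have h1' : w ≤ (1 : ℚ) := by exact_mod_cast h1
    rw [numX_rot hδ hR hκ hq hk h0' h1']
    obtain ⟨r, k1, -, k2⟩ := hB.clo hk ((hI k hk).2.2.1 w hw)
    have k3 := k2 ω ω' h2 h3 h4
    refine k3.trans ?_
    have e1 : (2 : ℝ) / 2 ^ r = (2 : ℝ) ^ (1 - (r : ℝ)) := by
      rw [Real.rpow_sub (by norm_num), Real.rpow_one, Real.rpow_natCast]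
    rw [e1]
    refine Real.rpow_le_rpow_of_exponent_le (by norm_num) ?_
    nlinarith only [hJ1, eJ4, k1]
  · have h0' : (0 : ℚ) ≤ w := by exact_mod_cast h0
    have h1' : w ≤ (1 : ℚ) := by exact_mod_cast h1
    rw [numX_rot hδ hR hκ hq hk h0' h1'] at hC h2
    have h2' : crot M s k w + 2 * h ≤ cn M s k - cq M s k := h2
    have hr0 : 0 ≤ crot M s k w := hR.rot0 k hk w h0' h1'
    have k0 : 0 ≤ (crot M s k w + h) * J := mul_nonneg (by linarith only [he, heh, hr0]) hJ0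
    obtain ⟨r, hr⟩ : ∃ r : ℕ, r = ⌊(crot M s k w + h) * J⌋₊ := ⟨_, rfl⟩
    have k1 : (r : ℝ) ≤ (crot M s k w + h) * J := by rw [hr]; exact Nat.floor_le k0
    have k2 : (crot M s k w + h) * J < r + 1 := by rw [hr]; exact Nat.lt_floor_add_one _
    obtain ⟨b1, b2⟩ := hB.q_near hψ hk (hI k hk).1
    obtain ⟨b3, b4⟩ := hB.n_near hψ hk (hI k hk).2.1
    refine hB.not_clo hk ((hI k hk).2.2.1 w hw) (hev E hE) (r := r) ?_ ?_ ?_
    · nlinarith only [hJ1, eJ4, k2]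
    · have : (r : ℝ) + (B k).q ≤ (B k).n := by
        have c1 : (crot M s k w + 2 * h) * J ≤ (cn M s k - cq M s k) * J :=
          mul_le_mul_of_nonneg_right h2' hJ0
        nlinarith only [hJ1, eJ4, k1, b2, b3, c1]
      exact_mod_cast this
    · intro ω ω' c1 c2 c3
      refine (hC ω ω' c1 c2 c3).trans ?_
      have e1 : (2 : ℝ) / 2 ^ r = (2 : ℝ) ^ (1 - (r : ℝ)) := by
        rw [Real.rpow_sub (by norm_num), Real.rpow_one, Real.rpow_natCast]
      rw [e1]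
      refine Real.rpow_le_rpow_of_exponent_le (by norm_num) ?_
      linarith only [k1]
  · have h0' : (0 : ℚ) ≤ x := by exact_mod_cast h0
    have h1' : x ≤ (1 : ℚ) := by exact_mod_cast h1
    rw [numX_act hδ hR hκ hq hk h0' h1']
    have hE0 : 0 < Pe F.p E := lt_of_lt_of_le (mul_pos hϖ hA) hE.2
    have hEl : IsLaw (Pool.Agent.H49.Ent.cond F.p E True) := isLaw_cond F.isLaw hE0
    have hxI := (hI k hk).2.2.2 x hx
    have k1 := (hB.cnt hk hxI).entropy hEl fun ω hω => by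
      have := (cond_pos_iff F.isLaw.nonneg E True ω).1 hω
      exact ⟨this.1, hE.1 ω (of_eq_true this.2)⟩
    rw [Real.log_exp] at k1
    have hc0 : 0 ≤ cact M s k x := by
      have h4 := hR.act0 k hk 0 le_rfl (by push_cast; exact hR.q0 k hk)
      rw [← h4]
      exact hR.actm k hk 0 x le_rfl h0' h1'
    have hc1 : cact M s k x ≤ 1 := by
      have h4 := hR.act0 k hk 0 le_rfl (by push_cast; exact hR.q0 k hk)
      have h5 := hR.actl k hk 0 x le_rfl h0' h1'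
      rw [h4] at h5
      push_cast at h5
      have : ((x : ℝ) - 0) * Real.log 2 ≤ 1 := by nlinarith only [hl21, hl2, h1]
      linarith only [h5, this]
    rw [abs_le]
    constructor
    · rcases lt_or_ge (cact M s k x) e with h3 | h3
      · have k2 := CH_nonneg hEl.nonneg (fun ω => ⌊(2 : ℝ) ^ ⌊(x : ℝ) * J⌋₊ * F.d ω (B k).i0⌋)
          (ptk B k)
        nlinarith only [hJ1, eJ4, k2, h3]
      · have hθ0 : 0 < h / (4 * (1 + h)) := hq0
        have k2 := ent_low (F := F) hE0 (ptk B k)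
          (fun ω => ⌊(2 : ℝ) ^ ⌊(x : ℝ) * J⌋₊ * F.d ω (B k).i0⌋)
          (a := (cact M s k x - e) * J) (θ := h / (4 * (1 + h)))
          (mul_nonneg (by linarith only [h3]) hJ0) fun G hG hP => by
            refine hB.not_cnt hk hxI ⟨fun ω hω => hE.1 ω (hG ω hω), ?_⟩
            refine le_trans ?_ hP
            have := hE.2
            calc Real.exp (-(ψ * J)) * Pe F.p A ≤ (ϖ * (h / (4 * (1 + h)))) * Pe F.p A :=
                  mul_le_mul_of_nonneg_right hJ2 hA.le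
              _ = (h / (4 * (1 + h))) * (ϖ * Pe F.p A) := by ring
              _ ≤ _ := mul_le_mul_of_nonneg_left this hθ0.le
        have k3 : h / (4 * (1 + h)) ≤ h / 4 := by
          rw [div_le_div_iff₀ (by positivity) (by positivity)]
          nlinarith only [he, heh]
        have k4 : (1 - h / 4) * ((cact M s k x - e) * J) ≤
            (1 - h / (4 * (1 + h))) * ((cact M s k x - e) * J) :=
          mul_le_mul_of_nonneg_right (by linarith only [k3]) (mul_nonneg (by linarith only [h3]) hJ0)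
        have k5 : h / 4 * ((cact M s k x - e) * J) ≤ h / 4 * J := by
          refine mul_le_mul_of_nonneg_left ?_ (by positivity)
          nlinarith only [hJ1, hc1]
        nlinarith only [hJ1, eJ4, k2, k4, k5]
    · nlinarith only [hJ1, eJ4, k1]
  · have h1' : cn M s k + 2 * h ≤ 1 := h1
    obtain ⟨b3, b4⟩ := hB.n_near hψ hk (hI k hk).2.1
    have k1 : (⌊e * (J : ℝ)⌋₊ : ℝ) ≤ e * J := Nat.floor_le (by positivity)
    refine hB.exa k hk E (hev E hE) ?_ (near_mono hN (Nat.floor_mono eJ))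
    have : ((B k).n : ℝ) + ⌊e * (J : ℝ)⌋₊ ≤ J := by
      have c1 : (cn M s k + 2 * h) * J ≤ 1 * J := mul_le_mul_of_nonneg_right h1' hJ0
      nlinarith only [hJ1, eJ4, b4, k1, c1]
    exact_mod_cast this

/-- The boxes are not near the full precision. -/
theorem cq_le {b R c₀ η : ℝ} {K : ℕ} (hb : 1 ≤ b) (hR : 0 < R) (hc : 0 < c₀) {M : ℕ} {δ g : ℝ}
    (hpr : 2 * δ + 2 * M * g ≤ R / 2) {s : ℕ → ℝ}
    (hne : ((cls 2 b K η R c₀).sl ((bdec δ g M).sld s)).Ne)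
    (hbox : ∀ (I : ℕ) (h : ℝ), 0 < h → ∃ ψ > 0, ∃ J₁ : ℕ, ∀ J ≥ J₁, ∀ (F : Fam 2 J)
        (A : F.Ω → Prop), ((cls 2 b K η R c₀).sl ((bdec δ g M).sld s)).St ψ J F A →
          ∃ B N, Box δ g M s I h ψ F A B N) {k : ℕ} (hk : k < M) :
    cq M s k ≤ 1 - R / 4 := by
  by_contra hcon
  push Not at hcon
  have hl2 : 0 < Real.log 2 := Real.log_pos (by norm_num)
  have hl22 : Real.log 2 < 7 / 10 := by
    have := Real.log_two_lt_d9
    linarith only [hl2, this]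
  have hl5 : Real.log 5 ≤ 4 := by
    have := Real.log_le_sub_one_of_pos (show (0 : ℝ) < 5 by norm_num)
    linarith only [this]
  obtain ⟨ψ, hψ, J₁, h1⟩ := hbox (ix M 0 k 0) (R / 100) (by positivity)
  obtain ⟨J₂, hJ₂⟩ := exists_nat_gt (200 / R)
  obtain ⟨J, hJ, F, A, hA⟩ := hne (min ψ c₀) (lt_min hψ hc) (J₁ + J₂)
  have hA2 := PCl.mono _ (min_le_left ψ c₀) hA
  obtain ⟨B, N, hB⟩ := h1 J (by omega) F A hA2
  have hJ3 : 200 / R < J := hJ₂.trans_le (by exact_mod_cast (by omega : J₂ ≤ J))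
  rw [div_lt_iff₀ hR] at hJ3
  have hJ0 : (0 : ℝ) < J := by
    by_contra hcon2
    push Not at hcon2
    nlinarith only [hl2, hl22, hJ3, hR, hcon2]
  obtain ⟨⟨-, -, hU⟩, hPA⟩ := hA.1
  have hPA' : Real.exp (-(c₀ * J)) ≤ Pe F.p A := by
    refine le_trans (Real.exp_le_exp.2 ?_) hPA
    have : min ψ c₀ * J ≤ c₀ * J := mul_le_mul_of_nonneg_right (min_le_right _ _) hJ0.le
    linarith only [this]
  have h2 := line_bar hb hU hPA' hk hB.chn
  have h3 := hB.pri k hk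
  obtain ⟨h4, h5⟩ := hB.q_near hψ.le hk le_rfl
  have h6 : (2 * δ + 2 * M * g + R / 100) * J ≤ (R / 2 + R / 100) * J :=
    mul_le_mul_of_nonneg_right (by linarith only [hpr]) hJ0.le
  have h7 : (1 - R / 4 - R / 100) * J ≤ (B k).q := by
    refine le_trans (mul_le_mul_of_nonneg_right ?_ hJ0.le) h4
    linarith only [hcon]
  have h8 : 2 * ((J : ℝ) - (B k).q) * Real.log 2 ≤ 2 * ((R / 4 + R / 100) * J) * Real.log 2 :=
    mul_le_mul_of_nonneg_right (by linarith only [h7]) hl2.le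
  have h9 : 2 * ((R / 4 + R / 100) * J) * Real.log 2 ≤ 2 * ((R / 4 + R / 100) * J) * (7 / 10) :=
    mul_le_mul_of_nonneg_left hl22.le (by positivity)
  nlinarith only [hl2, hl22, hl5, hJ3, h2, h3, h6, h8, h9]

/-- **The pairs of the class.** -/
theorem cls_pair : CLSPair := by
  intro b R c₀ η K hb hR hc hη hne M δ g hδ hg hpr
  have hpos : ∀ (τ : ℝ) (J : ℕ) (F : Fam 2 J) (A : F.Ω → Prop),
      (cls 2 b K η R c₀).St τ J F A → 0 < Pe F.p A := fun τ J F A h => cls_pos h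
  obtain ⟨s, hlu, hs0, hne2, hbar, hbox⟩ := box_thm hδ hg M hne hpos
  have hNR : NumR M δ g s := numR hδ hpos hlu hs0 hne2 hbar
  have hκ : 0 < R / 4 := by positivity
  have hq : ∀ k < M, cq M s k ≤ 1 - R / 4 := fun k hk => cq_le hb hR hc hpr hne2 hbox hk
  refine ⟨numX hδ hNR hκ hq, ?_⟩
  intro W Q h ϖ τ hh hϖ hϖ1 hτ J₀
  obtain ⟨I, hI⟩ : ∃ I : ℕ, ∀ k < M, ix M 0 k 0 ≤ I ∧ ix M 1 k 0 ≤ I ∧
      (∀ w ∈ W, ix M 2 k w ≤ I) ∧ ∀ x ∈ Q, ix M 3 k x ≤ I := by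
    refine ⟨∑ k ∈ range M, (ix M 0 k 0 + ix M 1 k 0 + ∑ w ∈ W, ix M 2 k w +
      ∑ x ∈ Q, ix M 3 k x), fun k hk => ?_⟩
    have h1 := Finset.single_le_sum (f := fun k => ix M 0 k 0 + ix M 1 k 0 +
      ∑ w ∈ W, ix M 2 k w + ∑ x ∈ Q, ix M 3 k x) (fun _ _ => Nat.zero_le _)
      (Finset.mem_range.2 hk)
    refine ⟨by omega, by omega, fun w hw => ?_, fun x hx => ?_⟩
    · have h2 := Finset.single_le_sum (f := fun w => ix M 2 k w) (fun _ _ => Nat.zero_le _) hw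
      omega
    · have h2 := Finset.single_le_sum (f := fun x => ix M 3 k x) (fun _ _ => Nat.zero_le _) hx
      omega
  obtain ⟨ψ, hψ, J₁, h1⟩ := hbox I (h / 4) (by positivity)
  obtain ⟨J₂, hJ₂⟩ := exists_nat_ge (2 / (h / 4))
  have hc1 : 0 < ϖ * (h / (4 * (1 + h))) := by positivity
  obtain ⟨J₃, hJ₃⟩ := exists_nat_ge (-Real.log (ϖ * (h / (4 * (1 + h)))) / ψ)
  obtain ⟨J, hJ, F, A, hA⟩ := hne2 (min ψ τ) (lt_min hψ hτ) (J₀ + J₁ + J₂ + J₃)
  obtain ⟨B, N, hB⟩ := h1 J (by omega) F A (PCl.mono _ (min_le_left ψ τ) hA)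
  have k1 : 2 ≤ h / 4 * J := by
    have h2 := hJ₂.trans (by exact_mod_cast (by omega : J₂ ≤ J) : (J₂ : ℝ) ≤ J)
    rw [div_le_iff₀ (by positivity)] at h2
    linarith only [h2]
  have k2 : Real.exp (-(ψ * J)) ≤ ϖ * (h / (4 * (1 + h))) := by
    have h2 := hJ₃.trans (by exact_mod_cast (by omega : J₃ ≤ J) : (J₃ : ℝ) ≤ J)
    rw [div_le_iff₀ hψ] at h2
    rw [← Real.exp_log hc1]
    refine Real.exp_le_exp.2 ?_
    linarith only [h2]
  exact ⟨J, by omega, F, A, B, N, PCl.mono _ (min_le_right ψ τ) hA.1,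
    lvl_of_box hδ hNR hκ hq (cls_pos hA.1) (by positivity) (by linarith only) hψ.le hϖ hI k1 k2 hB⟩

/-- **The output of the class side.** -/
theorem cls_out : CLSOut := out_of_pair cls_pair

end Pool.PC
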