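import Pool.Agent.H85.PC.Reg

/-!
# The class of Plan C is not empty

If `LKG` fails, then there are families with a trivial side information, rounded lines, regular
entropies, times with live windows (pointwise), such that all labels of all large events are
expensive.
-/

set_option autoImplicit false

namespace Pool.PC

open Finset Real
open Pool.Agent.H49.Ent Pool.Agent.H32.Dense Pool.STK Pool.KA Pool.KSAT Pool.K2S Pool.LK

/-- **(VEX)** The class is not empty. -/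
theorem vex (m : ℕ) {b : ℝ} (hb : 1 ≤ b) (hn : ¬ Pool.KMF.LKG m b) :
    ∃ R > 0, ∃ c > 0, ∀ η > 0, ∃ K : ℕ, ∀ τ > 0, ∀ J₀ : ℕ, ∃ J ≥ J₀, ∃ F : Fam m J,
      F.Tr ∧ F.TGD False K η 0 (η * J) (τ * J) ∧ F.TGR False K η 0 (η * J) (τ * J) ∧
        F.Rb (τ * J) ∧ Umv F b R c := by
  unfold Pool.KMF.LKG Pool.LK.LKG at hn
  push Not at hn
  obtain ⟨ε, hε, hn⟩ := hn
  obtain ⟨κ, hκ, J₁, hsel⟩ := reg_sel m hb hε
  obtain ⟨C, hC, hlab⟩ := lab_rnd m b
  obtain ⟨ρ, hρ, J₂, humx⟩ := umxv m hb (ε := ε / 4) (by positivity)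
  obtain ⟨B₀, hB₀, hent⟩ := reg_ent m
  refine ⟨ε / 16, by positivity, ε / 64, by positivity, fun η hη => ?_⟩
  obtain ⟨η₁, hη₁⟩ : ∃ η₁ : ℝ, η₁ = ρ * η ^ 2 / 48 := ⟨_, rfl⟩
  have hη₁0 : 0 < η₁ := by rw [hη₁]; positivity
  obtain ⟨K, hK⟩ := hn η₁ hη₁0
  refine ⟨K, fun τ hτ J₀ => ?_⟩
  obtain ⟨J₃, hcore⟩ := reg_core m (b := b) hε hρ hB₀ hη hτ
  obtain ⟨J₄, hJ₄⟩ := exists_nat_ge (4 * C / ε)
  obtain ⟨θ, hθ⟩ : ∃ θ : ℝ, θ = κ * η₁ ^ 2 / (K + 1) := ⟨_, rfl⟩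
  have hθ0 : 0 < θ := by rw [hθ]; positivity
  obtain ⟨J, hJ, F, hTG, hF⟩ := hK θ hθ0 (J₀ + J₁ + J₂ + J₃ + J₄ + 1)
  have hJr : (1 : ℝ) ≤ J := by exact_mod_cast (by omega : 1 ≤ J)
  have hJp : (0 : ℝ) < J := by linarith
  have k1 : 4 * C ≤ ε * J := by
    have h := hJ₄.trans (by exact_mod_cast (by omega : J₄ ≤ J) : (J₄ : ℝ) ≤ J)
    rw [div_le_iff₀ hε] at h
    linarith
  -- one value of the side information, one unit cube
  obtain ⟨κ', c, k, h, hTr, hTG1, hF1, u₀, hu₀⟩ := hsel J (by omega) F False K η₁ 0 (η₁ * J)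
    (θ * J) (by positivity) hTG (fun B => (hF B).le)
  -- rounded lines
  have hlG : ∀ B : Lbl (F.res c k h).rnd b, vi (F.res c k h).rnd + ε / 4 * J ≤ B.cost := by
    intro B
    have h1 := hlab J (F.res c k h) (ε / 2 * J) hF1 B
    linarith
  have hnb := rou (F.res c k h) (ρ := η₁) hη₁0 hη₁0.le hTG1 hη
  have hnb2 : 3 / η * (η₁ * J + (0 + η₁) * J + (η₁ * J + K * (θ * J / κ) / η₁)) ≤
      ρ / 4 * (η * J) := by
    have h1 : K * (θ * J / κ) / η₁ ≤ η₁ * J := by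
      rw [div_le_iff₀ hη₁0, hθ]
      have h2 : (K : ℝ) * (κ * η₁ ^ 2 / (K + 1) * J / κ) = K / (K + 1) * (η₁ ^ 2 * J) := by
        field_simp
      rw [h2]
      have h3 : (K : ℝ) / (K + 1) ≤ 1 := by
        rw [div_le_one (by positivity)]
        linarith
      have h4 : (0 : ℝ) ≤ η₁ ^ 2 * J := by positivity
      nlinarith
    have h2 : 3 / η * (η₁ * J + (0 + η₁) * J + (η₁ * J + K * (θ * J / κ) / η₁)) ≤
        3 / η * (4 * η₁ * J) := mul_le_mul_of_nonneg_left (by linarith) (by positivity)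
    refine h2.trans (le_of_eq ?_)
    rw [hη₁]
    field_simp
    ring
  obtain ⟨A, hA, hPA, hUA⟩ := humx J (by omega) (F.res c k h).rnd hlG
  have hTrG : (F.res c k h).rnd.Tr := hTr
  have hentG := hent J (by omega) (F.res c k h) u₀ hTr hu₀
  obtain ⟨F', hF'⟩ := hcore J (by omega) K (F.res c k h).rnd hTrG hentG (hnb.trans hnb2) A hA hPA
    (fun A' h' B => by
      have h1 := hUA A' h' B
      have e : ε / 4 / 2 = ε / 8 := by ring
      rwa [e] at h1)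
  exact ⟨J, by omega, F', hF'⟩

end Pool.PC
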