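import Pool.Agent.H69.PC.Cls
import Pool.Agent.H54.PC.BoxDefs

/-!
# Plan C: the output of the class side

`Num M δ g κ`: the class numbers of `M` levels of boxes in the space of directions, with rate `δ`
and gaps `g`. `ClsLvl F A S W Q h ϖ B N`: the family `F` has on the event `A` a chain of boxes `B` at
the exact points, with the class numbers `S`, up to `h`, at the finitely many windows `W` and
precisions `Q`, on all events of relative probability at least `ϖ`. `CLSOut`: in a nonempty class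
there are such families, for fixed class numbers and for all `W`, `Q`, `h`, `ϖ`, `τ`.
-/

set_option autoImplicit false

namespace Pool.PC

open Finset Real
open Pool.Agent.H49.Ent Pool.Agent.H32.Dense Pool.STK Pool.KA Pool.KSAT Pool.K2S Pool.LK

/-- **The class numbers**, in units of `J`; entropies are natural logarithms. -/
structure Num (M : ℕ) (δ g κ : ℝ) where
  /-- the precision of the box of level `k` in the long direction -/
  q : ℕ → ℝ
  /-- the precision of the box of level `k` in the short direction -/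
  n : ℕ → ℝ
  /-- the precision to which the slope of level `k` is a function of the line and the window -/
  rot : ℕ → ℝ → ℝ
  /-- the entropy of the digits of the direction, given the exact point and the levels up to `k` -/
  act : ℕ → ℝ → ℝ
  q0 : ∀ k < M, 0 ≤ q k
  qn : ∀ k < M, q k ≤ n k
  n1 : ∀ k < M, n k ≤ 1
  qκ : ∀ k < M, q k ≤ 1 - κ
  qg : ∀ k, k + 1 < M → q k + g ≤ q (k + 1)
  ng : ∀ k, k + 1 < M → min (n k + g) 1 ≤ n (k + 1)
  rot0 : ∀ k < M, ∀ w, 0 ≤ rot k w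
  rot1 : ∀ k < M, ∀ w, rot k w ≤ n k - q k
  rotm : ∀ k < M, Monotone (rot k)
  act0 : ∀ k < M, ∀ x ≤ q k, act k x = 0
  actm : ∀ k < M, Monotone (act k)
  actl : ∀ k < M, ∀ x y, x ≤ y → act k y - act k x ≤ (y - x) * Real.log 2
  actd : ∀ k < M, ∀ x, q k ≤ x → x ≤ 1 → δ * (x - q k) * Real.log 2 ≤ act k x

variable {m J : ℕ}

/-- On `A`, the line and the window `w` determine `a`, up to `e`. -/
def Clz (F : Fam m J) (A : F.Ω → Prop) (a : F.Ω → ℝ) (w : ℕ) (e : ℝ) : Prop :=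
  ∀ ω ω', On F A ω → On F A ω' → slam F w ω = slam F w ω' → |a ω - a ω'| ≤ e

/-- The events inside `A` of relative probability at least `ϖ`. -/
def Ev (F : Fam m J) (A : F.Ω → Prop) (ϖ : ℝ) (E : F.Ω → Prop) : Prop :=
  (∀ ω, E ω → A ω) ∧ ϖ * Pe F.p A ≤ Pe F.p E

/-- **The levels at one family**, on the event `A`. -/
structure ClsLvl {M : ℕ} {δ g κ : ℝ} (F : Fam 2 J) (A : F.Ω → Prop) (S : Num M δ g κ)
    (W Q : Finset ℚ) (h ϖ : ℝ) (B : ℕ → Bx F) (N : ℕ → ℝ) : Prop where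
  /-- the chain: boxes, inside, counts of the cumulative labels given the exact point -/
  chn : Chn F A M ⌊g * J⌋₊ B N
  /-- the class numbers of the boxes -/
  bq : ∀ k < M, |((B k).q : ℝ) - S.q k * J| ≤ h * J
  bn : ∀ k < M, |((B k).n : ℝ) - S.n k * J| ≤ h * J
  /-- **(PRICE)** -/
  price : ∀ k < M, N k ≤ (2 * δ + 2 * M * g + h) * J
  /-- **(CLO)** the slopes are closed to `rot - h` -/
  clo : ∀ k < M, ∀ w ∈ W, (0 : ℝ) ≤ w → (w : ℝ) ≤ 1 →
    Clz F A (B k).a ⌊(w : ℝ) * J⌋₊ ((2 : ℝ) ^ (-((S.rot k w - h) * J)))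
  /-- **(TH)** on no event they are closed to `rot + h` -/
  th : ∀ k < M, ∀ w ∈ W, (0 : ℝ) ≤ w → (w : ℝ) ≤ 1 → S.rot k w + 2 * h ≤ S.n k - S.q k →
    ∀ E, Ev F A ϖ E → ¬ Clz F E (B k).a ⌊(w : ℝ) * J⌋₊ ((2 : ℝ) ^ (-((S.rot k w + h) * J)))
  /-- **(ACT)** the entropies of the digits of the direction, two-sided, on all events -/
  act : ∀ k < M, ∀ x ∈ Q, (0 : ℝ) ≤ x → (x : ℝ) ≤ 1 → ∀ E, Ev F A ϖ E →
    |CH (Pool.Agent.H49.Ent.cond F.p E True)
      (fun ω => ⌊(2 : ℝ) ^ ⌊(x : ℝ) * J⌋₊ * F.d ω (B k).i0⌋) (ptk B k) - S.act k x * J| ≤ h * J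
  /-- **(EXA)** on no event the zoomed fans are near lines -/
  exa : ∀ k < M, S.n k + 2 * h ≤ 1 → ∀ E, Ev F A ϖ E →
    ¬ NearLine F (B k) E (ptk B k) ⌊h * J⌋₊

/-- **(CLSOut)** The output of the class side, for one family and the sure event: the class numbers
are chosen before the windows `W`, the precisions `Q`, the errors `h`, `ϖ` and the defect `τ`. -/
def CLSOut : Prop :=
  ∀ (b R c₀ η : ℝ) (K : ℕ), 1 ≤ b → 0 < R → 0 < c₀ → 0 < η → (cls 2 b K η R c₀).Ne →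
  ∀ (M : ℕ) (δ g : ℝ), 0 < δ → 0 < g → 2 * δ + 2 * M * g ≤ R / 2 →
    ∃ S : Num M δ g (R / 4), ∀ (W Q : Finset ℚ) (h ϖ τ : ℝ), 0 < h → 0 < ϖ → ϖ ≤ 1 → 0 < τ →
      ∀ J₀ : ℕ, ∃ J ≥ J₀, ∃ (F : Fam 2 J) (B : ℕ → Bx F) (N : ℕ → ℝ),
        F.Tr ∧ F.TGD False K η 0 (η * J) (τ * J) ∧ (∀ L : Lbl F b, F.Vf + R * J ≤ L.cost) ∧
        ClsLvl F (fun _ => True) S W Q h ϖ B N

/-- **(CLSPair)** The same for the pairs of the class: what LEX and the rows BOX, PRICE, EXA, ACT,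
CLO, TH give directly. `CLSOut` follows (`out_of_pair`): half of the event is dominated, everything
is hereditary. -/
def CLSPair : Prop :=
  ∀ (b R c₀ η : ℝ) (K : ℕ), 1 ≤ b → 0 < R → 0 < c₀ → 0 < η → (cls 2 b K η R c₀).Ne →
  ∀ (M : ℕ) (δ g : ℝ), 0 < δ → 0 < g → 2 * δ + 2 * M * g ≤ R / 2 →
    ∃ S : Num M δ g (R / 4), ∀ (W Q : Finset ℚ) (h ϖ τ : ℝ), 0 < h → 0 < ϖ → ϖ ≤ 1 → 0 < τ →
      ∀ J₀ : ℕ, ∃ J ≥ J₀, ∃ (F : Fam 2 J) (A : F.Ω → Prop) (B : ℕ → Bx F) (N : ℕ → ℝ),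
        (cls 2 b K η R c₀).St τ J F A ∧ ClsLvl F A S W Q h ϖ B N

end Pool.PC
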