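import Pool.Agent.H85.PC.NumR
import Pool.Agent.H85.PC.Out

/-!
# Plan C: the class numbers as functions of a real variable
-/

set_option autoImplicit false

namespace Pool.PC

open Finset Real

/-- The values at the rationals of `[0, 1]` below `x`, and zero. -/
def xset (f : ℚ → ℝ) (x : ℝ) : Set ℝ :=
  insert 0 {y | ∃ r : ℚ, 0 ≤ r ∧ r ≤ 1 ∧ (r : ℝ) ≤ x ∧ f r = y}

/-- The extension to the reals. -/
noncomputable def xt (f : ℚ → ℝ) (x : ℝ) : ℝ := sSup (xset f x)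

section

variable {f : ℚ → ℝ} {C : ℝ}

theorem xset_bdd (hb : ∀ r : ℚ, 0 ≤ r → r ≤ 1 → f r ≤ C) (x : ℝ) : BddAbove (xset f x) := by
  refine ⟨max C 0, ?_⟩
  rintro y (h | ⟨r, h0, h1, -, rfl⟩)
  · rw [h]
    exact le_max_right _ _
  · exact (hb r h0 h1).trans (le_max_left _ _)

theorem xt_nonneg (hb : ∀ r : ℚ, 0 ≤ r → r ≤ 1 → f r ≤ C) (x : ℝ) : 0 ≤ xt f x :=
  le_csSup (xset_bdd hb x) (Or.inl rfl)

theorem le_xt (hb : ∀ r : ℚ, 0 ≤ r → r ≤ 1 → f r ≤ C) {x : ℝ} {r : ℚ} (h0 : 0 ≤ r) (h1 : r ≤ 1)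
    (h : (r : ℝ) ≤ x) : f r ≤ xt f x := le_csSup (xset_bdd hb x) (Or.inr ⟨r, h0, h1, h, rfl⟩)

theorem xt_le {x c : ℝ} (hc : 0 ≤ c) (h : ∀ r : ℚ, 0 ≤ r → r ≤ 1 → (r : ℝ) ≤ x → f r ≤ c) :
    xt f x ≤ c := by
  refine csSup_le ⟨0, Or.inl rfl⟩ ?_
  rintro y (h1 | ⟨r, h0, h1, h2, rfl⟩)
  · rw [h1]
    exact hc
  · exact h r h0 h1 h2

theorem xt_mono (hb : ∀ r : ℚ, 0 ≤ r → r ≤ 1 → f r ≤ C) : Monotone (xt f) := by
  intro x y hxy
  exact xt_le (xt_nonneg hb y) fun r h0 h1 h2 => le_xt hb h0 h1 (h2.trans hxy)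

theorem xt_rat (hb : ∀ r : ℚ, 0 ≤ r → r ≤ 1 → f r ≤ C) (hn : ∀ r : ℚ, 0 ≤ r → r ≤ 1 → 0 ≤ f r)
    (hm : ∀ r r' : ℚ, 0 ≤ r → r ≤ r' → r' ≤ 1 → f r ≤ f r') {r : ℚ} (h0 : 0 ≤ r) (h1 : r ≤ 1) :
    xt f r = f r := by
  refine le_antisymm (xt_le (hn r h0 h1) fun r' h2 h3 h4 => ?_) (le_xt hb h0 h1 le_rfl)
  exact hm r' r h2 (by exact_mod_cast h4) h1

/-- A rational number slightly below. -/
theorem rat_below {a x e : ℝ} (ha : 0 ≤ a) (hax : a < x) (hx : x ≤ 1) (he : 0 < e) :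
    ∃ r : ℚ, 0 ≤ r ∧ r ≤ 1 ∧ a < r ∧ (r : ℝ) < x ∧ x - e < r := by
  obtain ⟨r, h1, h2⟩ := exists_rat_btwn (show max a (x - e) < x by
    rw [max_lt_iff]
    exact ⟨hax, by linarith⟩)
  rw [max_lt_iff] at h1
  refine ⟨r, ?_, ?_, h1.1, h2, h1.2⟩
  · have : (0 : ℝ) ≤ r := ha.trans h1.1.le
    exact_mod_cast this
  · have : (r : ℝ) ≤ 1 := h2.le.trans hx
    exact_mod_cast this

theorem xt_lip (hb : ∀ r : ℚ, 0 ≤ r → r ≤ 1 → f r ≤ C) (h00 : f 0 = 0) {L : ℝ} (hL : 0 ≤ L)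
    (hl : ∀ r r' : ℚ, 0 ≤ r → r ≤ r' → r' ≤ 1 → f r' - f r ≤ (r' - r) * L) {x y : ℝ}
    (hxy : x ≤ y) : xt f y - xt f x ≤ (y - x) * L := by
  have h1 : xt f y ≤ xt f x + (y - x) * L := by
    have hx0 := xt_nonneg hb x
    have hyx : 0 ≤ (y - x) * L := mul_nonneg (by linarith) hL
    refine xt_le (by linarith) fun r h2 h3 h4 => ?_
    rcases le_or_gt (r : ℝ) x with h5 | h5
    · have := le_xt hb h2 h3 h5
      linarith
    · rcases lt_or_ge x 0 with h6 | h6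
      · have h7 := hl 0 r le_rfl h2 h3
        rw [h00] at h7
        have h8 : ((r : ℝ) - (0 : ℚ)) * L ≤ (y - x) * L := by
          refine mul_le_mul_of_nonneg_right ?_ hL
          push_cast
          linarith
        linarith
      · refine le_of_forall_pos_le_add fun e he => ?_
        have hr1 : (r : ℝ) ≤ 1 := by exact_mod_cast h3
        obtain ⟨r', k1, k2, k3⟩ : ∃ r' : ℚ, 0 ≤ r' ∧ (r' : ℝ) ≤ x ∧ x - e / (L + 1) ≤ r' := by
          have he' : 0 < e / (L + 1) := by positivity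
          rcases h6.eq_or_lt with h7 | h7
          · refine ⟨0, le_rfl, ?_, ?_⟩
            · rw [← h7]
              norm_num
            · rw [← h7]
              push_cast
              linarith
          · obtain ⟨r', a1, a2, a3, a4, a5⟩ := rat_below le_rfl h7 (h5.le.trans hr1) he'
            exact ⟨r', a1, a4.le, a5.le⟩
        have k4 : r' ≤ r := by
          have : (r' : ℝ) ≤ r := k2.trans h5.le
          exact_mod_cast this
        have k5 := hl r' r k1 k4 h3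
        have k6 := le_xt hb k1 (k4.trans h3) k2
        have k7 : ((r : ℝ) - r') * L ≤ (y - x + e / (L + 1)) * L :=
          mul_le_mul_of_nonneg_right (by linarith) hL
        have k8 : e / (L + 1) * L ≤ e := by
          rw [div_mul_eq_mul_div, div_le_iff₀ (by linarith)]
          nlinarith
        nlinarith
  linarith

end

/-- **The class numbers.** -/
noncomputable def numX {M : ℕ} {δ γ κ : ℝ} {s : ℕ → ℝ} (hδ : 0 < δ) (h : NumR M δ γ s)
    (hκ : 0 < κ) (hq : ∀ k < M, cq M s k ≤ 1 - κ) : Num M δ γ κ where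
  q := cq M s
  n := cn M s
  rot k := xt (crot M s k)
  act k := xt (cact M s k)
  q0 := h.q0
  qn := h.qn
  n1 := h.n1
  qκ := hq
  qg := by
    intro k hk
    have h1 := h.qg k hk
    have h2 := hq (k + 1) hk
    rcases min_le_iff.1 h1 with h3 | h3
    · exact h3
    · linarith
  ng := h.ng
  rot0 := fun k hk w => xt_nonneg (h.rotn k hk) w
  rot1 := fun k hk w => xt_le (by have := h.qn k hk; linarith) fun r h0 h1 _ => h.rotn k hk r h0 h1
  rotm := fun k hk => xt_mono (h.rotn k hk)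
  act0 := by
    intro k hk x hx
    have hb : ∀ r : ℚ, 0 ≤ r → r ≤ 1 → cact M s k r ≤ cact M s k 1 := fun r h0 h1 =>
      h.actm k hk r 1 h0 h1 le_rfl
    refine le_antisymm (xt_le le_rfl fun r h0 _ h2 => ?_) (xt_nonneg hb x)
    exact (h.act0 k hk r h0 (h2.trans hx)).le
  actm := fun k hk => xt_mono (C := cact M s k 1) fun r h0 h1 => h.actm k hk r 1 h0 h1 le_rfl
  actl := by
    intro k hk x y hxy
    refine xt_lip (C := cact M s k 1) (fun r h0 h1 => h.actm k hk r 1 h0 h1 le_rfl) ?_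
      (Real.log_nonneg (by norm_num)) (h.actl k hk) hxy
    refine h.act0 k hk 0 le_rfl ?_
    push_cast
    exact h.q0 k hk
  actd := by
    intro k hk x hx h1
    have hb : ∀ r : ℚ, 0 ≤ r → r ≤ 1 → cact M s k r ≤ cact M s k 1 := fun r h0 h1 =>
      h.actm k hk r 1 h0 h1 le_rfl
    have hl2 : 0 < Real.log 2 := Real.log_pos (by norm_num)
    rcases hx.eq_or_lt with h2 | h2
    · rw [← h2, sub_self, mul_zero, zero_mul]
      exact xt_nonneg hb _
    · refine le_of_forall_pos_le_add fun e he => ?_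
      obtain ⟨r, a1, a2, a3, a4, a5⟩ := rat_below (h.q0 k hk) h2 h1
        (show 0 < e / (δ * Real.log 2) by positivity)
      have k1 := h.actd k hk r a3.le (by exact_mod_cast a2)
      have k2 := le_xt hb a1 a2 a4.le
      have k3 : δ * (x - e / (δ * Real.log 2) - cq M s k) * Real.log 2 ≤
          δ * (r - cq M s k) * Real.log 2 := by
        refine mul_le_mul_of_nonneg_right (mul_le_mul_of_nonneg_left ?_ hδ.le) hl2.le
        linarith
      have k4 : δ * (x - e / (δ * Real.log 2) - cq M s k) * Real.log 2 =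
          δ * (x - cq M s k) * Real.log 2 - e := by
        field_simp
        ring
      linarith

theorem numX_rot {M : ℕ} {δ γ κ : ℝ} {s : ℕ → ℝ} (hδ : 0 < δ) (h : NumR M δ γ s)
    (hκ : 0 < κ) (hq : ∀ k < M, cq M s k ≤ 1 - κ) {k : ℕ} (hk : k < M) {w : ℚ} (h0 : 0 ≤ w)
    (h1 : w ≤ 1) : (numX hδ h hκ hq).rot k w = crot M s k w :=
  xt_rat (h.rotn k hk) (h.rot0 k hk) (h.rotm k hk) h0 h1

theorem numX_act {M : ℕ} {δ γ κ : ℝ} {s : ℕ → ℝ} (hδ : 0 < δ) (h : NumR M δ γ s)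
    (hκ : 0 < κ) (hq : ∀ k < M, cq M s k ≤ 1 - κ) {k : ℕ} (hk : k < M) {x : ℚ} (h0 : 0 ≤ x)
    (h1 : x ≤ 1) : (numX hδ h hκ hq).act k x = cact M s k x := by
  refine xt_rat (C := cact M s k 1) (fun r h0 h1 => h.actm k hk r 1 h0 h1 le_rfl) ?_
    (h.actm k hk) h0 h1
  intro r h2 h3
  have h4 := h.act0 k hk 0 le_rfl (by push_cast; exact h.q0 k hk)
  rw [← h4]
  exact h.actm k hk 0 r le_rfl h2 h3

end Pool.PC
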