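import Pool.Agent.H87.PC.UMXV
import Pool.Agent.H34.TG.TYP
import Pool.Agent.H85.TG.RES
import Pool.Agent.H53.LK.Mzv

/-!
# One value of the side information and one unit cube, for times with live windows
-/

set_option autoImplicit false

namespace Pool.PC

open Finset Real
open Pool.Agent.H49.Ent Pool.Agent.H32.Dense Pool.STK Pool.KA Pool.KSAT Pool.K2S Pool.LK

variable {m J : ℕ}

/-- The unit cube of the line, given the exact point. -/
theorem ch_cube (F : Fam m J) : CH F.p (fun ω => fl 0 (F.u ω)) (fun ω => ((F.X J ω, F.T ω), F.Z ω)) ≤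
    m * Real.log 9 := by
  have hp := F.isLaw.nonneg
  have h := CH_le_vec hp F.isLaw.sum_one (fun ω => fl 0 (F.u ω))
    (fun ω => ((F.X J ω, F.T ω), F.Z ω)) (fun _ => 4) ?_
  · rw [Ex_const F.isLaw.sum_one] at h
    have e : (2 * 4 + 1 : ℝ) = 9 := by norm_num
    rwa [e] at h
  · intro ω ω' _ _ hW i
    have hX : F.X J ω = F.X J ω' := (Prod.ext_iff.1 (Prod.ext_iff.1 hW).1).1
    have hT : F.T ω = F.T ω' := (Prod.ext_iff.1 (Prod.ext_iff.1 hW).1).2
    have hXi : ⌊(2 : ℝ) ^ J * F.x ω i⌋ = ⌊(2 : ℝ) ^ J * F.x ω' i⌋ := congrFun hX i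
    have h1 := Int.abs_sub_lt_one_of_floor_eq_floor hXi
    have hJ : (1 : ℝ) ≤ 2 ^ J := one_le_pow₀ (by norm_num)
    have h2 : |F.x ω i - F.x ω' i| < 1 := by
      rw [← mul_sub, abs_mul, abs_of_pos (by positivity : (0 : ℝ) < 2 ^ J)] at h1
      have := abs_nonneg (F.x ω i - F.x ω' i)
      nlinarith
    have ht : F.t ω = F.t ω' := by unfold Fam.t; rw [hT]
    have ht0 : 0 ≤ F.t ω := by unfold Fam.t; positivity
    have ht1 : F.t ω ≤ 1 := by
      unfold Fam.t
      rw [div_le_one (by positivity)]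
      exact_mod_cast (F.tim ω).le
    have hd : |F.t ω * F.d ω i - F.t ω * F.d ω' i| ≤ 2 := by
      rw [← mul_sub, abs_mul, abs_of_nonneg ht0]
      have h3 : |F.d ω i - F.d ω' i| ≤ 2 := by
        have a1 := F.dir ω i
        have a2 := F.dir ω' i
        rw [abs_le] at a1 a2 ⊢
        constructor <;> linarith
      have := abs_nonneg (F.d ω i - F.d ω' i)
      nlinarith
    have hu : |F.u ω i - F.u ω' i| < 3 := by
      unfold Fam.x at h2
      rw [← ht] at h2
      have e1 : F.u ω i - F.u ω' i = (F.u ω i + F.t ω * F.d ω i - (F.u ω' i + F.t ω * F.d ω' i)) -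
        (F.t ω * F.d ω i - F.t ω * F.d ω' i) := by ring
      rw [e1]
      refine (abs_sub _ _).trans_lt ?_
      linarith
    have hf : ∀ x : ℝ, ((2 : ℝ) ^ 0 * x) = x := fun x => by rw [pow_zero, one_mul]
    change |((⌊(2 : ℝ) ^ 0 * F.u ω i⌋ - ⌊(2 : ℝ) ^ 0 * F.u ω' i⌋ : ℤ) : ℝ)| ≤ 4
    rw [hf, hf]
    have b1 := Int.floor_le (F.u ω i)
    have b2 := Int.lt_floor_add_one (F.u ω i)
    have b3 := Int.floor_le (F.u ω' i)
    have b4 := Int.lt_floor_add_one (F.u ω' i)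
    rw [abs_lt] at hu
    push_cast
    rw [abs_le]
    constructor <;> linarith [hu.1, hu.2]

/-- The information of the exact point in the parts. -/
theorem vi_parts (F : Fam m J) {K : Type} [Fintype K] (c : F.Ω → K)
    (hc : Det F.p (fun ω => (F.l ω, F.Z ω)) c) {C : ℝ}
    (hC : CH F.p c (fun ω => ((F.X J ω, F.T ω), F.Z ω)) ≤ C) :
    ∑ k, law F.p c k * viq F (Pool.Agent.H49.Ent.cond F.p c k) + CH F.p c F.Z ≤ vi F + C := by
  have hp := F.isLaw.nonneg
  have h1 := tya_CH_sum hp (fun ω => (F.X J ω, F.T ω)) F.Z c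
  have h2 := ch_avg hp F.T (fun ω => (F.l ω, F.Z ω)) c hc
  have h3 := CH_chain hp (fun ω => (F.X J ω, F.T ω)) c F.Z
  have h4 := CH_chain hp c (fun ω => (F.X J ω, F.T ω)) F.Z
  have h5 : CH F.p (fun ω => ((F.X J ω, F.T ω), c ω)) F.Z =
      CH F.p (fun ω => (c ω, (F.X J ω, F.T ω))) F.Z := by
    refine le_antisymm (CH_mono_left hp ?_) (CH_mono_left hp ?_)
    · intro ω ω' _ _ e
      have e2 := Prod.ext_iff.1 (Prod.ext_iff.1 e).1
      exact Prod.ext e2.2 e2.1
    · intro ω ω' _ _ e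
      have e2 := Prod.ext_iff.1 (Prod.ext_iff.1 e).1
      exact Prod.ext e2.2 e2.1
  have h6 : ∑ k, law F.p c k * viq F (Pool.Agent.H49.Ent.cond F.p c k) =
      CH F.p (fun ω => (F.X J ω, F.T ω)) (fun ω => (c ω, F.Z ω)) -
        CH F.p F.T (fun ω => (F.l ω, F.Z ω)) := by
    rw [h1, h2, ← Finset.sum_sub_distrib]
    refine Finset.sum_congr rfl fun k _ => ?_
    unfold viq
    ring
  rw [h6]
  unfold vi viq
  linarith

open Classical in
/-- One value of the side information, one unit cube. -/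
theorem reg_sel (m : ℕ) {b : ℝ} (hb : 1 ≤ b) {ε : ℝ} (hε : 0 < ε) :
    ∃ κ > 0, ∃ J₀ : ℕ, ∀ J ≥ J₀, ∀ (F : Fam m J) (s : Prop) (K : ℕ) (η r n e : ℝ), 0 < e →
      F.TG s K η r n e → (∀ B : Lbl F b, vi F + ε * J ≤ B.cost) →
      ∃ (κ' : Type) (c : F.Ω → κ') (k : κ') (h : IsLaw (Pool.Agent.H49.Ent.cond F.p c k)),
        (F.res c k h).Tr ∧ (F.res c k h).TG s K η r n (e / κ) ∧
        (∀ B : Lbl (F.res c k h) b, vi (F.res c k h) + ε / 2 * J ≤ B.cost) ∧
        ∃ u₀ : Fin m → ℤ, ∀ ω, Pool.Agent.H49.Ent.cond F.p c k ω ≠ 0 → fl 0 (F.u ω) = u₀ := by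
  obtain ⟨C, hC, htriv⟩ := triv m hb
  have hl2 : 0 < Real.log 2 := Real.log_pos (by norm_num)
  obtain ⟨D, hD⟩ : ∃ D : ℝ, D = m * Real.log 2 + C + ε := ⟨_, rfl⟩
  have hD0 : 0 < D := by rw [hD]; positivity
  obtain ⟨κ, hκ⟩ : ∃ κ : ℝ, κ = ε / (8 * D) := ⟨_, rfl⟩
  have hκ0 : 0 < κ := by rw [hκ]; positivity
  have hκD : κ * D = ε / 8 := by rw [hκ]; field_simp
  have hl9 : 0 ≤ Real.log 9 := Real.log_nonneg (by norm_num)
  obtain ⟨J₁, hJ₁⟩ := exists_nat_ge (8 * (m * Real.log 9) / ε)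
  refine ⟨κ, hκ0, max J₁ 1, fun J hJ F s K η r n e he hTG hF => ?_⟩
  have hJ1 : (1 : ℝ) ≤ J := by exact_mod_cast (le_max_right _ _).trans hJ
  have hJ0 : (0 : ℝ) < J := by linarith
  have hJ3 : 8 * (m * Real.log 9) ≤ ε * J := by
    have h1 : 8 * (m * Real.log 9) / ε ≤ J :=
      hJ₁.trans (by exact_mod_cast (le_max_left _ _).trans hJ)
    rw [div_le_iff₀ hε] at h1
    linarith
  have hp := F.isLaw.nonneg
  obtain ⟨μ, hK, hs, hL, hkl⟩ := hTG
  -- the values
  set c : F.Ω → {z : F.ζ × (Fin m → ℤ) // z ∈ univ.image fun ω => (F.Z ω, fl 0 (F.u ω))} :=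
    fun ω => ⟨(F.Z ω, fl 0 (F.u ω)), Finset.mem_image_of_mem _ (Finset.mem_univ _)⟩ with hc
  have hlaw : ∀ k, law F.p c k ≠ 0 → IsLaw (Pool.Agent.H49.Ent.cond F.p c k) := fun k hk =>
    ⟨cond_nonneg hp c k, sum_cond F.p c hk⟩
  have hval : ∀ k ω, Pool.Agent.H49.Ent.cond F.p c k ω ≠ 0 → (F.Z ω, fl 0 (F.u ω)) = k.1 := by
    intro k ω hω
    have h1 : 0 < Pool.Agent.H49.Ent.cond F.p c k ω :=
      lt_of_le_of_ne (cond_nonneg hp c k ω) (Ne.symm hω)
    have h2 := ((cond_pos_iff hp c k ω).mp h1).2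
    exact congrArg Subtype.val h2
  have hdet : Det F.p (fun ω => (F.l ω, F.Z ω)) c := by
    intro ω ω' _ _ h
    have h1 := Prod.ext_iff.1 h
    have h2 : F.u ω = F.u ω' := (Prod.ext_iff.1 h1.1).1
    have h3 : F.Z ω = F.Z ω' := h1.2
    exact Subtype.ext (by simp only [hc, h2, h3])
  by_contra hcon
  push Not at hcon
  -- relative entropies of the parts
  set g : {z : F.ζ × (Fin m → ℤ) // z ∈ univ.image fun ω => (F.Z ω, fl 0 (F.u ω))} → ℝ := fun k =>
    Ex (Pool.Agent.H49.Ent.cond F.p c k) (fun ω => -Real.log (μ ω (F.T ω))) -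
      CH (Pool.Agent.H49.Ent.cond F.p c k) F.T (fun ω => (F.l ω, F.Z ω)) with hg
  have hg0 : ∀ k, law F.p c k ≠ 0 → 0 ≤ g k := fun k hk =>
    ker_kl_nonneg34 (ker_res34 hK c k (hlaw k hk))
  have hgs : ∑ k, law F.p c k * g k ≤ e := by
    have h1 := Ex_sum_cond34 hp c (fun ω => -Real.log (μ ω (F.T ω)))
    have h2 := ch_avg hp F.T (fun ω => (F.l ω, F.Z ω)) c hdet
    have h3 : ∑ k, law F.p c k * g k = F.kl μ := by
      unfold Fam.kl
      rw [h1, h2, ← Finset.sum_sub_distrib]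
      exact Finset.sum_congr rfl fun k _ => by simp only [hg]; ring
    rw [h3]
    exact hkl
  -- each value
  have hlab : ∀ k (hk : law F.p c k ≠ 0), ∃ B : Lbl (F.res c k (hlaw k hk)) b,
      B.cost ≤ viq F (Pool.Agent.H49.Ent.cond F.p c k) + ε / 2 * J + D * J * (κ / e * g k) := by
    intro k hk
    have hpos : 0 ≤ D * J * (κ / e * g k) := by
      have := hg0 k hk
      positivity
    by_cases hgood : g k ≤ e / κ
    · have h1 := hcon _ c k (hlaw k hk)
        ⟨k.1.1, fun ω hω => (Prod.ext_iff.1 (hval k ω hω)).1⟩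
        ⟨μ, hK.res c k _, fun h => Det.res' (hs h) c k _, hL.res c k _, hgood⟩
      by_contra h2
      push Not at h2
      obtain ⟨ω, hω1, hω2⟩ := h1 (fun B => (h2 B).le.trans' (by
        have : vi (F.res c k (hlaw k hk)) = viq F (Pool.Agent.H49.Ent.cond F.p c k) := rfl
        rw [this]
        linarith)) k.1.2
      exact hω2 (Prod.ext_iff.1 (hval k ω hω1)).2
    · push Not at hgood
      obtain ⟨B, hB⟩ := htriv J (F.res c k (hlaw k hk))
      refine ⟨B, hB.trans ?_⟩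
      have h1 : vi (F.res c k (hlaw k hk)) = viq F (Pool.Agent.H49.Ent.cond F.p c k) := rfl
      rw [h1]
      have h2 : 1 ≤ κ / e * g k := by
        rw [div_lt_iff₀ hκ0] at hgood
        rw [div_mul_eq_mul_div, le_div_iff₀ he]
        linarith
      have h3 : D * J ≤ D * J * (κ / e * g k) := by
        have := mul_le_mul_of_nonneg_left h2 (by positivity : 0 ≤ D * J)
        linarith
      have h4 : D * J = m * (J * Real.log 2) + C * J + ε * J := by rw [hD]; ring
      have h5 : C ≤ C * J := by nlinarith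
      have h6 : 0 ≤ ε / 2 * J := by positivity
      have h7 : 0 ≤ ε * J := by positivity
      linarith
  choose B hB using hlab
  obtain ⟨B', hB'⟩ := Pool.Agent.H1.LK.mixl_thm m b J F _ c hlaw B
  have s1 : ∑ k, law F.p c k = 1 := law_sum_one F.isLaw c
  have s4 : ∑ k, law F.p c k * (if hk : law F.p c k ≠ 0 then (B k hk).cost else 0) ≤
      ∑ k, law F.p c k * (viq F (Pool.Agent.H49.Ent.cond F.p c k) + ε / 2 * J +
        D * J * (κ / e * g k)) := by
    refine Finset.sum_le_sum fun k _ => ?_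
    by_cases hk : law F.p c k ≠ 0
    · rw [dif_pos hk]
      exact mul_le_mul_of_nonneg_left (hB k hk) (law_nonneg hp c k)
    · rw [dif_neg hk, mul_zero]
      have h1 : law F.p c k = 0 := not_not.1 hk
      rw [h1, zero_mul]
  have s5 : ∑ k, law F.p c k * (viq F (Pool.Agent.H49.Ent.cond F.p c k) + ε / 2 * J +
        D * J * (κ / e * g k)) =
      ∑ k, law F.p c k * viq F (Pool.Agent.H49.Ent.cond F.p c k) + ε / 2 * J +
        D * J * (κ / e) * ∑ k, law F.p c k * g k := by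
    rw [Finset.mul_sum]
    simp only [mul_add, Finset.sum_add_distrib, ← Finset.sum_mul, s1, one_mul]
    congr 1
    exact Finset.sum_congr rfl fun k _ => by ring
  have s6 : D * J * (κ / e) * ∑ k, law F.p c k * g k ≤ ε / 8 * J := by
    have h1 : D * J * (κ / e) * ∑ k, law F.p c k * g k ≤ D * J * (κ / e) * e :=
      mul_le_mul_of_nonneg_left hgs (by positivity)
    refine h1.trans (le_of_eq ?_)
    have h2 : D * J * (κ / e) * e = κ * D * J := by field_simp
    rw [h2, hκD]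
  have s7 : ∑ k, law F.p c k * viq F (Pool.Agent.H49.Ent.cond F.p c k) + CH F.p c F.Z ≤
      vi F + m * Real.log 9 := by
    refine vi_parts F c hdet ?_
    refine (CH_mono_left hp (X' := fun ω => fl 0 (F.u ω)) ?_).trans (ch_cube F)
    intro ω ω' _ _ h
    have h1 := Prod.ext_iff.1 h
    have h2 : fl 0 (F.u ω) = fl 0 (F.u ω') := h1.1
    have h3 : F.Z ω = F.Z ω' := (Prod.ext_iff.1 h1.2).2
    exact Subtype.ext (by simp only [hc, h2, h3])
  have s8 := hF B'
  have hεJ : 0 < ε * J := by positivity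
  linarith

end Pool.PC
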